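import Pool.Agent.L0.W4.Local

/-!
# The three claims
-/

set_option autoImplicit false

open Polynomial

universe u

namespace Pool.Agent.L0.W4

/-- **Reduction lemma.** -/
theorem reduction {L E κ : Type*} [Field L] [Field E] [Field κ] {ι : L →+* E} {ρ : L →+* κ}
    (w : Plc ι ρ) (g : Fin 4 → L) (a b : Fin 4 → E) (m : Fin 4 → ℤ)
    (ha : ∀ i, a i = 0 ∨ m i ≤ w.v (a i)) (hb : ∀ i, b i = 0 ∨ m i ≤ w.v (b i))
    {n : ℕ} (V : Fin 4 → Fin n → E) (hV : ∃ i k, V i k ≠ 0)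
    (heq : ∑ i, ι (g i) * (a i ^ 2 + b i ^ 2) * ∑ k, V i k ^ 2 = 0)
    (p : Fin 4 → E) (hp : ∃ i, p i ≠ 0) (hrel : ∀ k, ∑ i, p i * V i k = 0) :
    ∃ (V' : Fin 4 → Fin n → κ) (p' : Fin 4 → κ), (∃ i k, V' i k ≠ 0) ∧ (∃ i, p' i ≠ 0) ∧
      (∑ i, ρ (g i) * (w.r (w.ϖ ^ (-m i) * a i) ^ 2 + w.r (w.ϖ ^ (-m i) * b i) ^ 2) *
        ∑ k, V' i k ^ 2 = 0) ∧
      (∀ k, ∑ i, p' i * V' i k = 0) ∧ (∀ i, p i = 0 → p' i = 0) ∧
      (∀ i j, p i ≠ 0 → p j ≠ 0 → w.v (p i) - m i ≠ w.v (p j) - m j → p' i = 0 ∨ p' j = 0) := by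
  have hA : ∀ i, w.Int (w.ϖ ^ (-m i) * a i) := fun i => w.int_scale (ha i)
  have hB : ∀ i, w.Int (w.ϖ ^ (-m i) * b i) := fun i => w.int_scale (hb i)
  -- normalise `V`
  obtain ⟨i₀, k₀, hik⟩ := hV
  obtain ⟨s, hs, ⟨i₁, k₁⟩, hs0, hs1⟩ := w.exists_min
    (fun x : Fin 4 × Fin n => w.ϖ ^ (m x.1) * V x.1 x.2)
    ⟨(i₀, k₀), mul_ne_zero (w.ϖ_zpow_ne _) hik⟩
  have hVi : ∀ i k, w.Int (w.ϖ ^ (-s) * (w.ϖ ^ (m i) * V i k)) := fun i k =>
    w.int_scale (hs (i, k))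
  -- normalise `p`
  obtain ⟨j₀, hj⟩ := hp
  obtain ⟨q, hq, j₁, hq0, hq1⟩ := w.exists_min (fun i => w.ϖ ^ (-m i) * p i)
    ⟨j₀, mul_ne_zero (w.ϖ_zpow_ne _) hj⟩
  have hpi : ∀ i, w.Int (w.ϖ ^ (-q) * (w.ϖ ^ (-m i) * p i)) := fun i => w.int_scale (hq i)
  refine ⟨fun i k => w.r (w.ϖ ^ (-s) * (w.ϖ ^ (m i) * V i k)),
    fun i => w.r (w.ϖ ^ (-q) * (w.ϖ ^ (-m i) * p i)), ⟨i₁, k₁, w.r_scale_ne hs0 hs1⟩,
    ⟨j₁, w.r_scale_ne hq0 hq1⟩, ?_, ?_, ?_, ?_⟩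
  · have h1 : ∑ i, ι (g i) * ((w.ϖ ^ (-m i) * a i) ^ 2 + (w.ϖ ^ (-m i) * b i) ^ 2) *
        ∑ k, (w.ϖ ^ (-s) * (w.ϖ ^ (m i) * V i k)) ^ 2 = 0 := by
      have h2 : ∀ i, ι (g i) * ((w.ϖ ^ (-m i) * a i) ^ 2 + (w.ϖ ^ (-m i) * b i) ^ 2) *
        ∑ k, (w.ϖ ^ (-s) * (w.ϖ ^ (m i) * V i k)) ^ 2 =
        (w.ϖ ^ (-s)) ^ 2 * (ι (g i) * (a i ^ 2 + b i ^ 2) * ∑ k, V i k ^ 2) := by
        intro i
        have h3 : ∑ k, (w.ϖ ^ (-s) * (w.ϖ ^ (m i) * V i k)) ^ 2 =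
            (w.ϖ ^ (-s)) ^ 2 * (w.ϖ ^ (m i)) ^ 2 * ∑ k, V i k ^ 2 := by
          rw [Finset.mul_sum]
          exact Finset.sum_congr rfl fun k _ => by ring
        have h4 : w.ϖ ^ (-m i) * w.ϖ ^ (m i) = 1 := by
          rw [← zpow_add₀ w.ϖ_ne]
          simp
        rw [h3]
        linear_combination (ι (g i) * (a i ^ 2 + b i ^ 2) * (w.ϖ ^ (-s)) ^ 2 * ∑ k, V i k ^ 2) *
          (w.ϖ ^ (-m i) * w.ϖ ^ (m i) + 1) * h4
      rw [Finset.sum_congr rfl fun i _ => h2 i, ← Finset.mul_sum, heq, mul_zero]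
    have h5 := congrArg w.r h1
    have hint1 : ∀ i, w.Int ((w.ϖ ^ (-m i) * a i) ^ 2 + (w.ϖ ^ (-m i) * b i) ^ 2) := fun i =>
      w.int_add (w.int_pow (hA i) 2) (w.int_pow (hB i) 2)
    have hint2 : ∀ i, w.Int (∑ k, (w.ϖ ^ (-s) * (w.ϖ ^ (m i) * V i k)) ^ 2) := fun i =>
      w.int_sum _ _ fun k _ => w.int_pow (hVi i k) 2
    have hint3 : ∀ i, w.Int (ι (g i) * ((w.ϖ ^ (-m i) * a i) ^ 2 + (w.ϖ ^ (-m i) * b i) ^ 2)) :=
      fun i => w.int_mul (w.int_ι _) (hint1 i)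
    rw [w.r_zero, w.r_sum _ _ fun i _ => w.int_mul (hint3 i) (hint2 i)] at h5
    rw [← h5]
    refine Finset.sum_congr rfl fun i _ => ?_
    rw [w.r_mul _ _ (hint3 i) (hint2 i), w.r_mul _ _ (w.int_ι _) (hint1 i), w.r_ι,
      w.r_add _ _ (w.int_pow (hA i) 2) (w.int_pow (hB i) 2), w.r_pow (hA i), w.r_pow (hB i),
      w.r_sum _ _ fun k _ => w.int_pow (hVi i k) 2]
    congr 1
    exact Finset.sum_congr rfl fun k _ => by rw [w.r_pow (hVi i k)]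
  · intro k
    have h1 : ∑ i, (w.ϖ ^ (-q) * (w.ϖ ^ (-m i) * p i)) * (w.ϖ ^ (-s) * (w.ϖ ^ (m i) * V i k)) = 0 := by
      have h2 : ∀ i, (w.ϖ ^ (-q) * (w.ϖ ^ (-m i) * p i)) * (w.ϖ ^ (-s) * (w.ϖ ^ (m i) * V i k)) =
          (w.ϖ ^ (-q) * w.ϖ ^ (-s)) * (p i * V i k) := by
        intro i
        have h4 : w.ϖ ^ (-m i) * w.ϖ ^ (m i) = 1 := by
          rw [← zpow_add₀ w.ϖ_ne]
          simp
        linear_combination (w.ϖ ^ (-q) * w.ϖ ^ (-s) * p i * V i k) * h4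
      rw [Finset.sum_congr rfl fun i _ => h2 i, ← Finset.mul_sum, hrel k, mul_zero]
    have h5 := congrArg w.r h1
    rw [w.r_zero, w.r_sum _ _ fun i _ => w.int_mul (hpi i) (hVi i k)] at h5
    rw [← h5]
    exact Finset.sum_congr rfl fun i _ => by rw [w.r_mul _ _ (hpi i) (hVi i k)]
  · intro i hi
    simp only [hi, mul_zero]
    exact w.r_zero
  · intro i j hi hj hne
    by_contra hcon
    push Not at hcon
    have h1 := mt (w.r_scale_eq_zero_iff (hq i)).2 hcon.1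
    have h2 := mt (w.r_scale_eq_zero_iff (hq j)).2 hcon.2
    push Not at h1 h2
    have h3 := (hq i).resolve_left h1.1
    have h4 := (hq j).resolve_left h2.1
    rw [w.v_scale hi] at h3 h1
    rw [w.v_scale hj] at h4 h2
    omega

/-- the polynomial coefficients -/
noncomputable def Gp {k : Type*} [Field k] (c : k) : Fin 4 → k[X] :=
  ![(X + 1) * (X - 2), C c * ((X - 1) * (X - 2)), -(3 * (X * (X - 1))), C c * (X * (X + 1))]

/-- the residue of a polynomial at a place over `X = u₀` -/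
theorem r_pol {k E κ : Type u} [Field k] [Field E] [Algebra (RatFunc k) E] [Field κ]
    [Algebra k κ] (w : Plc (bse k E) (algebraMap k κ)) (u₀ : k)
    (hint : ∀ b : k[X], w.Int (pol k E b)) (hpos : 0 < w.v (pol k E (X - C u₀))) (f : k[X]) :
    w.r (pol k E f) = algebraMap k κ (f.eval u₀) := by
  let R : k[X] →+* κ :=
    { toFun := fun f => w.r (pol k E f)
      map_zero' := by rw [map_zero, w.r_zero]
      map_one' := by rw [map_one, w.r_one]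
      map_add' := fun f g => by rw [map_add, w.r_add _ _ (hint f) (hint g)]
      map_mul' := fun f g => by rw [map_mul, w.r_mul _ _ (hint f) (hint g)] }
  have hX : w.r (pol k E X) = algebraMap k κ u₀ := by
    have h1 : (X : k[X]) = (X - C u₀) + C u₀ := by ring
    rw [h1, map_add, w.r_add _ _ (hint _) (hint _), w.r_of_pos (Or.inr hpos), pol_C, w.r_ι, zero_add]
  have h2 : R = (algebraMap k κ).comp (evalRingHom u₀) := by
    apply Polynomial.ringHom_ext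
    · intro a
      change w.r (pol k E (C a)) = _
      rw [pol_C, w.r_ι]
      simp
    · change w.r (pol k E X) = _
      rw [hX]
      simp
  exact congrArg (fun (F : k[X] →+* κ) => F f) h2

section claim1

variable {k E : Type u} [Field k] [CharZero k] [Field E] [Algebra (RatFunc k) E]
  [FiniteDimensional (RatFunc k) E]

theorem claim1_at (hodd : Odd (Module.finrank (RatFunc k) E)) (hR : Rl k) {c : k} (hc : Ani c)
    (u₀ : k) (Y₁ Y₂ Y₃ Y₄ t : k[X]) (ht : t = X - C u₀ ∨ t = -(X - C u₀))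
    (h12 : Y₁.eval u₀ = - Y₂.eval u₀) (h10 : Y₁.eval u₀ ≠ 0)
    (h3 : IsSumSq (Y₃.eval u₀)) (h30 : Y₃.eval u₀ ≠ 0)
    (h4 : IsSumSq (Y₄.eval u₀)) (h40 : Y₄.eval u₀ ≠ 0)
    {a₁ b₁ a₂ b₂ a₃ b₃ a₄ b₄ : E} (h₁ : a₁ ≠ 0 ∨ b₁ ≠ 0) (h₂ : a₂ ≠ 0 ∨ b₂ ≠ 0)
    (h₃ : a₃ ≠ 0 ∨ b₃ ≠ 0) (h₄ : a₄ ≠ 0 ∨ b₄ ≠ 0) {n : ℕ} (V₁ V₂ V₃ V₄ : Fin n → E)
    (hV : (∃ k, V₁ k ≠ 0) ∨ (∃ k, V₂ k ≠ 0) ∨ (∃ k, V₃ k ≠ 0) ∨ (∃ k, V₄ k ≠ 0))
    (heq : pol k E Y₁ * (a₁ ^ 2 + b₁ ^ 2) * ∑ k, V₁ k ^ 2 +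
      pol k E (C c * Y₂) * (a₂ ^ 2 + b₂ ^ 2) * ∑ k, V₂ k ^ 2 +
      (pol k E (t * Y₃) * (a₃ ^ 2 + b₃ ^ 2) * ∑ k, V₃ k ^ 2 +
      pol k E (t * Y₄) * (a₄ ^ 2 + b₄ ^ 2) * ∑ k, V₄ k ^ 2) = 0)
    (p q : E) (hpq : p ≠ 0 ∨ q ≠ 0) (hrel : ∀ k, p * V₁ k + q * V₂ k = 0) : False := by
  obtain ⟨κ, _, _, _, hκ, w, hw1, hint, hpos⟩ := exists_place_at hodd u₀
  have hr := r_pol w u₀ hint hpos
  have hRκ : Rl κ := hR.odd hκ
  have hcκ : Ani (algebraMap k κ c) := hc.odd hκ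
  have hinj : ∀ x : k, x ≠ 0 → algebraMap k κ x ≠ 0 := fun x hx => by
    rwa [ne_eq, map_eq_zero]
  have hss : ∀ x : k, IsSumSq x → IsSumSq (algebraMap k κ x) := by
    intro x hx
    induction hx with
    | zero => rw [map_zero]; exact IsSumSq.zero
    | sq_add a hs ih =>
      rw [map_add, map_mul]
      exact IsSumSq.sq_add _ ih
  have htw : Odd (w.v (pol k E t)) ∧ pol k E t ≠ 0 := by
    have h0 : pol k E (X - C u₀) ≠ 0 := by
      rw [ne_eq, map_eq_zero_iff _ pol_injective]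
      exact X_sub_C_ne_zero u₀
    rcases ht with rfl | rfl
    · exact ⟨hw1, h0⟩
    · rw [map_neg, w.v_neg]
      exact ⟨hw1, neg_ne_zero.2 h0⟩
  have hu : ∀ f : k[X], IsSumSq (f.eval u₀) → f.eval u₀ ≠ 0 → w.P (pol k E f) := by
    intro f hf hf0
    refine w.P_unit (hint f) ?_ ?_
    · rw [hr]; exact hinj _ hf0
    · rw [hr]; exact hss _ hf
  refine w.local_lemma hRκ c hcκ (y₁ := pol k E Y₁) (y₂ := pol k E Y₂) (hint _) (hint _)
    (by rw [hr, hr, h12, map_neg]) (by rw [hr]; exact hinj _ h10) (hu Y₃ h3 h30) (hu Y₄ h4 h40)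
    htw.2 htw.1 h₁ h₂ h₃ h₄ V₁ V₂ V₃ V₄ hV ?_ p q hpq hrel
  rw [map_mul, map_mul, map_mul, pol_C] at heq
  exact heq

/-- **Claim 1.** -/
theorem claim1 (hodd : Odd (Module.finrank (RatFunc k) E)) (hR : Rl k) {c : k}
    (hcs : IsSumSq c) (hc0 : c ≠ 0) (hc : Ani c)
    (a b : Fin 4 → E) (hab : ∀ i, a i ≠ 0 ∨ b i ≠ 0) {n : ℕ} (V : Fin 4 → Fin n → E)
    (hV : ∃ i k, V i k ≠ 0)
    (heq : ∑ i, pol k E (Gp c i) * (a i ^ 2 + b i ^ 2) * ∑ k, V i k ^ 2 = 0)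
    (p : Fin 4 → E) (hp : ∃ i, p i ≠ 0) (hrel : ∀ k, ∑ i, p i * V i k = 0)
    (hz : (p 0 = 0 ∨ p 2 = 0) ∧ (p 1 = 0 ∨ p 3 = 0)) : False := by
  have hG0 : Gp c 0 = (X + 1) * (X - 2) := rfl
  have hG1 : Gp c 1 = C c * ((X - 1) * (X - 2)) := rfl
  have hG2 : Gp c 2 = -(3 * (X * (X - 1))) := rfl
  have hG3 : Gp c 3 = C c * (X * (X + 1)) := rfl
  rw [Fin.sum_univ_four] at heq
  simp only [Fin.sum_univ_four] at hrel
  have h3s : IsSumSq (3 : k) := by exact_mod_cast IsSumSq.natCast (R := k) 3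
  have h30 : (3 : k) ≠ 0 := by norm_num
  have hV' : ((∃ k, V 0 k ≠ 0) ∨ (∃ k, V 1 k ≠ 0) ∨ (∃ k, V 2 k ≠ 0) ∨ (∃ k, V 3 k ≠ 0)) := by
    obtain ⟨i, hi⟩ := hV
    fin_cases i
    · exact Or.inl hi
    · exact Or.inr (Or.inl hi)
    · exact Or.inr (Or.inr (Or.inl hi))
    · exact Or.inr (Or.inr (Or.inr hi))
  have hp' : p 0 ≠ 0 ∨ p 1 ≠ 0 ∨ p 2 ≠ 0 ∨ p 3 ≠ 0 := by
    obtain ⟨i, hi⟩ := hp
    fin_cases i
    · exact Or.inl hi
    · exact Or.inr (Or.inl hi)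
    · exact Or.inr (Or.inr (Or.inl hi))
    · exact Or.inr (Or.inr (Or.inr hi))
  obtain ⟨hz1, hz2⟩ := hz
  rcases hz1 with z1 | z1 <;> rcases hz2 with z2 | z2
  · -- pair (2,3) at `u = 2`
    refine claim1_at hodd hR hc 2 (-(3 * (X * (X - 1)))) (X * (X + 1)) (X + 1) (C c * (X - 1))
      (X - C 2) (Or.inl rfl) ?_ ?_ ?_ ?_ ?_ ?_ (hab 2) (hab 3) (hab 0) (hab 1)
      (V 2) (V 3) (V 0) (V 1) (by tauto) ?_ (p 2) (p 3) (by tauto) ?_
    · simp; norm_num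
    · simp; norm_num
    · simp; norm_num; exact h3s
    · simp; norm_num
    · simp; norm_num; exact hcs
    · simp; norm_num; exact hc0
    · rw [← heq, hG0, hG1, hG2, hG3]
      simp only [map_mul, map_sub, map_add, map_neg, map_one, map_ofNat]
      ring
    · intro k
      have := hrel k
      rw [z1, z2] at this
      linear_combination this
  · -- pair (2,1) at `u = -1`
    refine claim1_at hodd hR hc (-1) (-(3 * (X * (X - 1)))) ((X - 1) * (X - 2)) (2 - X)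
      (C c * (-X)) (-(X - C (-1))) (Or.inr rfl) ?_ ?_ ?_ ?_ ?_ ?_ (hab 2) (hab 1) (hab 0) (hab 3)
      (V 2) (V 1) (V 0) (V 3) (by tauto) ?_ (p 2) (p 1) (by tauto) ?_
    · simp; norm_num
    · simp
    · simp; norm_num; exact h3s
    · simp; norm_num
    · simp; exact hcs
    · simp; exact hc0
    · rw [← heq, hG0, hG1, hG2, hG3]
      simp only [map_mul, map_sub, map_add, map_neg, map_one, map_ofNat]
      ring
    · intro k
      have := hrel k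
      rw [z1, z2] at this
      linear_combination this
  · -- pair (0,3) at `u = 1`
    refine claim1_at hodd hR hc 1 ((X + 1) * (X - 2)) (X * (X + 1)) (C c * (2 - X))
      (3 * X) (-(X - C 1)) (Or.inr rfl) ?_ ?_ ?_ ?_ ?_ ?_ (hab 0) (hab 3) (hab 1) (hab 2)
      (V 0) (V 3) (V 1) (V 2) (by tauto) ?_ (p 0) (p 3) (by tauto) ?_
    · simp; norm_num
    · simp; norm_num
    · simp; norm_num; exact hcs
    · simp; norm_num; exact hc0
    · simp; exact h3s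
    · simp
    · rw [← heq, hG0, hG1, hG2, hG3]
      simp only [map_mul, map_sub, map_add, map_neg, map_one, map_ofNat]
      ring
    · intro k
      have := hrel k
      rw [z1, z2] at this
      linear_combination this
  · -- pair (0,1) at `u = 0`
    refine claim1_at hodd hR hc 0 ((X + 1) * (X - 2)) ((X - 1) * (X - 2)) (-(3 * (X - 1)))
      (C c * (X + 1)) (X - C 0) (Or.inl rfl) ?_ ?_ ?_ ?_ ?_ ?_ (hab 0) (hab 1) (hab 2) (hab 3)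
      (V 0) (V 1) (V 2) (V 3) (by tauto) ?_ (p 0) (p 1) (by tauto) ?_
    · simp
    · simp
    · simp; exact h3s
    · simp
    · simp; exact hcs
    · simp; exact hc0
    · rw [← heq, hG0, hG1, hG2, hG3]
      simp only [map_mul, map_sub, map_add, map_neg, map_one, map_ofNat, map_zero, sub_zero]
      ring
    · intro k
      have := hrel k
      rw [z1, z2] at this
      linear_combination this

end claim1

end Pool.Agent.L0.W4
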