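import Pool.Agent.L0.W4.Claims

/-!
# Claims 2 and 3
-/

set_option autoImplicit false

open Polynomial

universe u

namespace Pool.Agent.L0.W4

/-- combine the reduction lemma and the parity lemma: a place at which the relation degenerates -/
theorem reduce_parity {L E : Type u} [Field L] [CharZero L] [Field E] [Algebra (RatFunc L) E]
    [FiniteDimensional (RatFunc L) E] (hodd : Odd (Module.finrank (RatFunc L) E)) (hR : Rl L)
    (g : Fin 4 → L) (i₀ j₀ : Fin 4) (hij : i₀ ≠ j₀) (a b : Fin 4 → E)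
    (hab : ∀ i, a i ≠ 0 ∨ b i ≠ 0)
    (hi₀ : a i₀ = 1 ∧ b i₀ = pol L E X) (hj₀ : a j₀ = 1 ∧ b j₀ = 0)
    {n : ℕ} (V : Fin 4 → Fin n → E) (hV : ∃ i k, V i k ≠ 0)
    (heq : ∑ i, bse L E (g i) * (a i ^ 2 + b i ^ 2) * ∑ k, V i k ^ 2 = 0)
    (p : Fin 4 → E) (hp : ∃ i, p i ≠ 0) (hrel : ∀ k, ∑ i, p i * V i k = 0) :
    ∃ (κ : Type u) (_ : Field κ) (_ : Algebra L κ), FiniteDimensional L κ ∧
      Odd (Module.finrank L κ) ∧ 
      ∃ (a' b' : Fin 4 → κ) (V' : Fin 4 → Fin n → κ) (p' : Fin 4 → κ),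
        (∀ i, a' i ≠ 0 ∨ b' i ≠ 0) ∧ (∃ i k, V' i k ≠ 0) ∧ (∃ i, p' i ≠ 0) ∧
        (∑ i, algebraMap L κ (g i) * (a' i ^ 2 + b' i ^ 2) * ∑ k, V' i k ^ 2 = 0) ∧
        (∀ k, ∑ i, p' i * V' i k = 0) ∧ (∀ i, p i = 0 → p' i = 0) ∧ (p' i₀ = 0 ∨ p' j₀ = 0) ∧
        (∀ i (α β : L), α ≠ 0 ∨ β ≠ 0 → a i = bse L E α → b i = bse L E β →
          a' i = algebraMap L κ α ∧ b' i = algebraMap L κ β) := by
  classical
  have hX0 : pol L E X ≠ 0 := by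
    rw [ne_eq, map_eq_zero_iff _ pol_injective]
    exact X_ne_zero
  obtain ⟨κ, iκ1, iκ2, iκ3, hκ, w, hw⟩ : ∃ (κ : Type u) (_ : Field κ) (_ : Algebra L κ),
      FiniteDimensional L κ ∧ Odd (Module.finrank L κ) ∧
      ∃ w : Plc (bse L E) (algebraMap L κ),
        p i₀ = 0 ∨ p j₀ = 0 ∨ w.v (p i₀) - w.v (p j₀) ≠ min 0 (w.v (pol L E X)) := by
    by_cases h1 : p i₀ = 0
    · obtain ⟨κ, j1, j2, j3, hκ, w, -⟩ := exists_place_at hodd (0 : L)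
      exact ⟨κ, j1, j2, j3, hκ, w, Or.inl h1⟩
    by_cases h2 : p j₀ = 0
    · obtain ⟨κ, j1, j2, j3, hκ, w, -⟩ := exists_place_at hodd (0 : L)
      exact ⟨κ, j1, j2, j3, hκ, w, Or.inr (Or.inl h2)⟩
    · obtain ⟨κ, j1, j2, j3, hκ, w, hw⟩ := exists_place_parity hodd (p i₀ / p j₀) (div_ne_zero h1 h2)
      refine ⟨κ, j1, j2, j3, hκ, w, Or.inr (Or.inr ?_)⟩
      rwa [w.v_div _ _ h1 h2] at hw
  -- normalisation of the coefficients
  have hm : ∀ i, ∃ m : ℤ, (a i = 0 ∨ m ≤ w.v (a i)) ∧ (b i = 0 ∨ m ≤ w.v (b i)) ∧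
      ((a i ≠ 0 ∧ w.v (a i) = m) ∨ (b i ≠ 0 ∧ w.v (b i) = m)) := by
    intro i
    obtain ⟨m, h1, j, h2, h3⟩ := w.exists_min (![a i, b i] : Fin 2 → E) (by
      rcases hab i with h | h
      · exact ⟨0, h⟩
      · exact ⟨1, h⟩)
    refine ⟨m, h1 0, h1 1, ?_⟩
    fin_cases j
    · exact Or.inl ⟨h2, h3⟩
    · exact Or.inr ⟨h2, h3⟩
  choose m hm1 hm2 hm3 using hm
  obtain ⟨V', p', g1, g2, g3, g4, g5, g6⟩ := reduction w g a b m hm1 hm2 V hV heq p hp hrel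
  refine ⟨κ, iκ1, iκ2, iκ3, hκ, fun i => w.r (w.ϖ ^ (-m i) * a i), fun i => w.r (w.ϖ ^ (-m i) * b i),
    V', p', ?_, g1, g2, g3, g4, g5, ?_, ?_⟩
  · intro i
    rcases hm3 i with ⟨h1, h2⟩ | ⟨h1, h2⟩
    · left; exact w.r_scale_ne h1 h2
    · right; exact w.r_scale_ne h1 h2
  · rcases hw with h | h | h
    · exact Or.inl (g5 _ h)
    · exact Or.inr (g5 _ h)
    by_cases h1 : p i₀ = 0
    · exact Or.inl (g5 _ h1)
    by_cases h2 : p j₀ = 0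
    · exact Or.inr (g5 _ h2)
    apply g6 i₀ j₀ h1 h2
    have e1 : m j₀ = 0 := by
      rcases hm3 j₀ with ⟨-, h4⟩ | ⟨h3, -⟩
      · rw [hj₀.1, w.v_one] at h4
        exact h4.symm
      · exact absurd hj₀.2 h3
    have e2 : m i₀ = min 0 (w.v (pol L E X)) := by
      have u1 := hm1 i₀
      have u2 := hm2 i₀
      have u3 := hm3 i₀
      rw [hi₀.1, w.v_one] at u1 u3
      rw [hi₀.2] at u2 u3
      have u1 := u1.resolve_left one_ne_zero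
      have u2 := u2.resolve_left hX0
      rcases u3 with ⟨-, u3⟩ | ⟨-, u3⟩ <;> omega
    rw [e1, e2]
    omega
  · intro i α β hαβ hα hβ
    have e0 : m i = 0 := by
      rcases hm3 i with ⟨h1, h2⟩ | ⟨h1, h2⟩
      · rw [hα] at h1 h2
        rw [← h2]
        exact w.v_ι _ fun h => h1 (by rw [h, map_zero])
      · rw [hβ] at h1 h2
        rw [← h2]
        exact w.v_ι _ fun h => h1 (by rw [h, map_zero])
    simp only [e0, neg_zero, zpow_zero, one_mul]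
    rw [hα, hβ, w.r_ι, w.r_ι]
    exact ⟨rfl, rfl⟩

section claim23

variable {k : Type u} [Field k] [CharZero k]

/-- **Claim 2.** -/
theorem claim2 {E : Type u} [Field E] [Algebra (RatFunc (RatFunc k)) E]
    [FiniteDimensional (RatFunc (RatFunc k)) E]
    (hodd : Odd (Module.finrank (RatFunc (RatFunc k)) E)) (hR : Rl k) {c : k}
    (hcs : IsSumSq c) (hc0 : c ≠ 0) (hc : Ani c)
    (a b : Fin 4 → E) (hab : ∀ i, a i ≠ 0 ∨ b i ≠ 0)
    (h1 : a 1 = 1 ∧ b 1 = pol (RatFunc k) E X) (h3 : a 3 = 1 ∧ b 3 = 0)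
    {n : ℕ} (V : Fin 4 → Fin n → E)
    (hV : ∃ i k, V i k ≠ 0)
    (heq : ∑ i, bse (RatFunc k) E (algebraMap k[X] (RatFunc k) (Gp c i)) * (a i ^ 2 + b i ^ 2) *
      ∑ k, V i k ^ 2 = 0)
    (p : Fin 4 → E) (hp : ∃ i, p i ≠ 0) (hrel : ∀ k, ∑ i, p i * V i k = 0)
    (hz : p 0 = 0 ∨ p 2 = 0) : False := by
  have := charZero_ratFunc k
  obtain ⟨κ, _, _, _, hκ, a', b', V', p', g1, g2, g3, g4, g5, g6, g7, -⟩ :=
    reduce_parity hodd hR.ratFunc (fun i => algebraMap k[X] (RatFunc k) (Gp c i)) 1 3 (by decide)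
      a b hab h1 h3 V hV heq p hp hrel
  exact claim1 hκ hR hcs hc0 hc a' b' g1 V' g2 g4 p' g3 g5
    ⟨hz.imp (g6 _) (g6 _), g7⟩

/-- **Claim 3.** -/
theorem claim3 {E : Type u} [Field E] [Algebra (RatFunc (RatFunc (RatFunc k))) E]
    [FiniteDimensional (RatFunc (RatFunc (RatFunc k))) E]
    (hodd : Odd (Module.finrank (RatFunc (RatFunc (RatFunc k))) E)) (hR : Rl k) {c : k}
    (hcs : IsSumSq c) (hc0 : c ≠ 0) (hc : Ani c)
    (a b : Fin 4 → E)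
    (h0 : a 0 = 1 ∧ b 0 = 0)
    (h1 : a 1 = 1 ∧ b 1 = bse (RatFunc (RatFunc k)) E (RatFunc.X))
    (h2 : a 2 = 1 ∧ b 2 = pol (RatFunc (RatFunc k)) E X)
    (h3 : a 3 = 1 ∧ b 3 = 0)
    {n : ℕ} (V : Fin 4 → Fin n → E)
    (hV : ∃ i k, V i k ≠ 0)
    (heq : ∑ i, bse (RatFunc (RatFunc k)) E (RatFunc.C (algebraMap k[X] (RatFunc k) (Gp c i))) *
      (a i ^ 2 + b i ^ 2) * ∑ k, V i k ^ 2 = 0)
    (p : Fin 4 → E) (hp : ∃ i, p i ≠ 0) (hrel : ∀ k, ∑ i, p i * V i k = 0) : False := by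
  have := charZero_ratFunc k
  have := charZero_ratFunc (RatFunc k)
  have hab : ∀ i, a i ≠ 0 ∨ b i ≠ 0 := by
    intro i
    left
    fin_cases i
    · exact h0.1 ▸ one_ne_zero
    · exact h1.1 ▸ one_ne_zero
    · exact h2.1 ▸ one_ne_zero
    · exact h3.1 ▸ one_ne_zero
  obtain ⟨κ, _, _, _, hκ, a', b', V', p', g1, g2, g3, g4, g5, g6, g7, g8⟩ :=
    reduce_parity hodd hR.ratFunc.ratFunc
      (fun i => RatFunc.C (algebraMap k[X] (RatFunc k) (Gp c i))) 2 0 (by decide)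
      a b hab h2 h0 V hV heq p hp hrel
  have e1 := g8 1 1 RatFunc.X (Or.inl one_ne_zero) (by rw [h1.1, map_one]) h1.2
  have e3 := g8 3 1 0 (Or.inl one_ne_zero) (by rw [h3.1, map_one]) (by rw [h3.2, map_zero])
  refine claim2 hκ hR hcs hc0 hc a' b' g1 ⟨by rw [e1.1, map_one], ?_⟩
    ⟨by rw [e3.1, map_one], by rw [e3.2, map_zero]⟩ V' g2 g4 p' g3 g5 g7.symm
  rw [e1.2, pol, RingHom.comp_apply, RatFunc.algebraMap_X]

end claim23

end Pool.Agent.L0.W4
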