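import Pool.Agent.L0.W4.Plc

/-!
# Places from primes of Dedekind domains, and norms
-/

set_option autoImplicit false

open IsDedekindDomain

namespace Pool.Agent.L0.W4

section count

/-- The exponent of the prime `P` in the ideal `I`. -/
noncomputable def cnt {S : Type*} [CommRing S] [IsDedekindDomain S] (P I : Ideal S) : ℕ := by
  classical
  exact (Associates.mk P).count (Associates.mk I).factors

variable {S : Type*} [CommRing S] [IsDedekindDomain S]

theorem cnt_mul {P I J : Ideal S} (hP : Prime P) (hI : I ≠ 0) (hJ : J ≠ 0) :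
    cnt P (I * J) = cnt P I + cnt P J := by
  classical
  rw [cnt, cnt, cnt, ← Associates.mk_mul_mk]
  exact Associates.count_mul (Associates.mk_ne_zero.2 hI) (Associates.mk_ne_zero.2 hJ)
    (Associates.irreducible_mk.2 hP.irreducible)

theorem cnt_one {P : Ideal S} (hP : Prime P) : cnt P (1 : Ideal S) = 0 := by
  have := cnt_mul (I := (1 : Ideal S)) (J := 1) hP one_ne_zero one_ne_zero
  rw [mul_one] at this
  omega

theorem cnt_self {P : Ideal S} (hP : Prime P) : cnt P P = 1 := by
  classical
  rw [cnt]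
  exact Associates.count_self (Associates.irreducible_mk.2 hP.irreducible)

theorem cnt_ne {P Q : Ideal S} (hP : Prime P) (hQ : Prime Q) (h : P ≠ Q) : cnt P Q = 0 := by
  classical
  rw [cnt]
  apply Associates.count_eq_zero_of_ne (Associates.irreducible_mk.2 hP.irreducible)
    (Associates.irreducible_mk.2 hQ.irreducible)
  intro h'
  exact h (associated_iff_eq.1 (Associates.mk_eq_mk_iff_associated.1 h'))

theorem cnt_pow {P I : Ideal S} (hP : Prime P) (hI : I ≠ 0) (n : ℕ) :
    cnt P (I ^ n) = n * cnt P I := by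
  induction n with
  | zero => rw [pow_zero, cnt_one hP, zero_mul]
  | succ n ih => rw [pow_succ, cnt_mul hP (pow_ne_zero _ hI) hI, ih]; ring

end count

section norm

variable {R S : Type*} [CommRing R] [CommRing S] [IsDedekindDomain R] [IsDedekindDomain S]
  [Algebra R S] [Module.Finite R S] [Module.IsTorsionFree R S] [PerfectField (FractionRing R)]

theorem cnt_relNorm (p : Ideal R) [hpm : p.IsMaximal] (hp : p ≠ ⊥) (T : Finset (Ideal S))
    (hT : ∀ Q : Ideal S, Q ∈ T ↔ Q.IsPrime ∧ Q.LiesOver p) :
    ∀ I : Ideal S, I ≠ 0 →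
      cnt p (Ideal.relNorm R I) = ∑ Q ∈ T, cnt Q I * Q.inertiaDeg R := by
  have hpp : Prime p := Ideal.prime_of_isPrime hp inferInstance
  have hTp : ∀ Q ∈ T, Prime Q := by
    intro Q hQ
    obtain ⟨h1, h2⟩ := (hT Q).1 hQ
    refine Ideal.prime_of_isPrime ?_ h1
    rintro rfl
    apply hp
    rw [h2.over]
    exact Ideal.comap_bot_of_injective _ (FaithfulSMul.algebraMap_injective R S)
  intro I
  induction I using UniqueFactorizationMonoid.induction_on_prime with
  | h₁ => intro h; exact absurd rfl h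
  | h₂ I hI =>
    intro _
    have : I = 1 := by rw [Ideal.isUnit_iff] at hI; rw [hI, Ideal.one_eq_top]
    rw [this, map_one, cnt_one hpp]
    symm
    apply Finset.sum_eq_zero
    intro Q hQ
    rw [cnt_one (hTp Q hQ), zero_mul]
  | h₃ J Q hJ hQ ih =>
    intro _
    have hQp : Q.IsPrime := Ideal.isPrime_of_prime hQ
    have hQm : Q.IsMaximal := hQp.isMaximal hQ.ne_zero
    have hNJ : Ideal.relNorm R J ≠ 0 := by
      rw [ne_eq, Ideal.zero_eq_bot, Ideal.relNorm_eq_bot_iff]
      exact hJ
    have hNQ : Ideal.relNorm R Q ≠ 0 := by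
      rw [ne_eq, Ideal.zero_eq_bot, Ideal.relNorm_eq_bot_iff]
      exact hQ.ne_zero
    rw [map_mul, cnt_mul hpp hNQ hNJ, ih hJ]
    have h1 : ∑ P ∈ T, cnt P (Q * J) * P.inertiaDeg R =
        (∑ P ∈ T, cnt P Q * P.inertiaDeg R) + ∑ P ∈ T, cnt P J * P.inertiaDeg R := by
      rw [← Finset.sum_add_distrib]
      refine Finset.sum_congr rfl fun P hP => ?_
      rw [cnt_mul (hTp P hP) hQ.ne_zero hJ]
      ring
    rw [h1]
    congr 1
    let q : Ideal R := Q.under R
    have hqm : q.IsMaximal := inferInstance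
    have hN : Ideal.relNorm R Q = q ^ Q.inertiaDeg R := Ideal.relNorm_eq_pow_of_isMaximal Q q
    have hq0 : q ≠ 0 := by
      intro h0
      have : Q.inertiaDeg R ≠ 0 := (Ideal.inertiaDeg_pos Q R).ne'
      rw [h0, zero_pow this] at hN
      exact hNQ hN
    have hqp : Prime q := Ideal.prime_of_isPrime hq0 inferInstance
    rw [hN, cnt_pow hpp hq0]
    by_cases hqe : p = q
    · have hQT : Q ∈ T := by
        rw [hT]
        exact ⟨hQp, hqe ▸ inferInstance⟩
      rw [← hqe, cnt_self hpp, Finset.sum_eq_single Q, cnt_self hQ]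
      · ring
      · intro P hP hPQ
        rw [cnt_ne (hTp P hP) hQ hPQ, zero_mul]
      · intro h; exact absurd hQT h
    · rw [cnt_ne hpp hqp hqe, mul_zero]
      symm
      apply Finset.sum_eq_zero
      intro P hP
      rw [cnt_ne (hTp P hP) hQ, zero_mul]
      rintro rfl
      exact hqe ((hT P).1 hP).2.over

end norm

end Pool.Agent.L0.W4
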