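import Pool.Agent.L0.W4.Exist1

/-!
# The place attached to a prime of a Dedekind domain
-/

set_option autoImplicit false

open IsDedekindDomain HeightOneSpectrum

namespace Pool.Agent.L0.W4

variable {S E k : Type*} [CommRing S] [IsDedekindDomain S] [Field E] [Algebra S E]
  [IsFractionRing S E] [Field k] (j : k →+* S) (Q : HeightOneSpectrum S)

/-- the residue homomorphism on the valuation ring -/
noncomputable def resHom : valuationSubringAtPrime E Q →+* S ⧸ Q.asIdeal :=
  IsLocalization.lift (M := Q.asIdeal.primeCompl) (g := Ideal.Quotient.mk Q.asIdeal) (by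
    intro y
    have := Q.isMaximal
    let _ := Ideal.Quotient.field Q.asIdeal
    apply IsUnit.mk0
    intro h
    exact y.2 (Ideal.Quotient.eq_zero_iff_mem.1 h))

theorem resHom_algebraMap (a : S) :
    resHom Q (algebraMap S (valuationSubringAtPrime E Q) a) = Ideal.Quotient.mk Q.asIdeal a :=
  IsLocalization.lift_eq _ _

theorem mem_vs (a : E) : a ∈ valuationSubringAtPrime E Q ↔ Q.valuation E a ≤ 1 := by
  rw [valuationSubringAtPrime_eq_valuationSubring]
  rfl

/-- the value -/
noncomputable def vv (a : E) : ℤ := - WithZero.log (Q.valuation E a)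

theorem vv_mul (a b : E) (ha : a ≠ 0) (hb : b ≠ 0) : vv Q (a * b) = vv Q a + vv Q b := by
  rw [vv, vv, vv, map_mul, WithZero.log_mul]
  · ring
  · exact (Valuation.ne_zero_iff _).2 ha
  · exact (Valuation.ne_zero_iff _).2 hb

theorem vv_le (a b : E) (ha : a ≠ 0) (hb : b ≠ 0) :
    vv Q a ≤ vv Q b ↔ Q.valuation E b ≤ Q.valuation E a := by
  rw [vv, vv, neg_le_neg_iff, WithZero.log_le_log]
  · exact (Valuation.ne_zero_iff _).2 hb
  · exact (Valuation.ne_zero_iff _).2 ha

theorem vv_nonneg (a : E) (ha : a ≠ 0) : 0 ≤ vv Q a ↔ Q.valuation E a ≤ 1 := by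
  have h := vv_le Q (1 : E) a one_ne_zero ha
  rw [map_one] at h
  have h1 : vv Q (1 : E) = 0 := by rw [vv, map_one, WithZero.log_one]; rfl
  rw [h1] at h
  exact h

theorem vv_pos (a : E) (ha : a ≠ 0) : 0 < vv Q a ↔ Q.valuation E a < 1 := by
  have h := vv_le Q a (1 : E) ha one_ne_zero
  rw [map_one] at h
  have h1 : vv Q (1 : E) = 0 := by rw [vv, map_one, WithZero.log_one]; rfl
  rw [h1] at h
  rw [← not_le, ← not_le, h]

/-- the value of an element of the Dedekind domain is the exponent of the prime -/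
theorem vv_algebraMap (b : S) (hb : b ≠ 0) :
    vv Q (algebraMap S E b) = cnt Q.asIdeal (Ideal.span {b}) := by
  classical
  rw [vv, HeightOneSpectrum.valuation_of_algebraMap, HeightOneSpectrum.intValuation_if_neg _ hb,
    WithZero.log_exp, cnt, neg_neg]

open Classical in
/-- the residue map -/
noncomputable def rr (a : E) : S ⧸ Q.asIdeal :=
  if h : a ∈ valuationSubringAtPrime E Q then resHom Q ⟨a, h⟩ else 0

theorem rr_of_mem (a : E) (h : a ∈ valuationSubringAtPrime E Q) : rr Q a = resHom Q ⟨a, h⟩ := by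
  rw [rr, dif_pos h]

theorem mem_of_int (a : E) (h : a = 0 ∨ 0 ≤ vv Q a) : a ∈ valuationSubringAtPrime E Q := by
  rw [mem_vs]
  by_cases h0 : a = 0
  · rw [h0, map_zero]; exact zero_le_one
  · exact (vv_nonneg Q a h0).1 (h.resolve_left h0)

theorem rr_algebraMap (b : S) : rr Q (algebraMap S E b) = Ideal.Quotient.mk Q.asIdeal b := by
  have h : algebraMap S E b ∈ valuationSubringAtPrime E Q := by
    rw [mem_vs]
    exact HeightOneSpectrum.valuation_le_one _ _
  rw [rr_of_mem Q _ h, ← resHom_algebraMap (E := E) Q b]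
  rfl

theorem rr_eq_zero (a : E) (ha : a ≠ 0) (h : 0 ≤ vv Q a) : rr Q a = 0 ↔ 0 < vv Q a := by
  have := Q.isMaximal
  let _ := Ideal.Quotient.field Q.asIdeal
  have hv := (vv_nonneg Q a ha).1 h
  obtain ⟨n, d, hnd⟩ := exists_primeCompl_mul_eq_of_integer Q a hv
  have hd : rr Q (algebraMap S E (d : S)) ≠ 0 := by
    rw [rr_algebraMap]
    intro h0
    exact d.2 (Ideal.Quotient.eq_zero_iff_mem.1 h0)
  have hmul : rr Q a * rr Q (algebraMap S E (d : S)) = rr Q (algebraMap S E n) := by
    rw [← hnd]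
    have h1 := mem_of_int Q a (Or.inr h)
    have h2 : algebraMap S E (d : S) ∈ valuationSubringAtPrime E Q := by
      rw [mem_vs]
      exact HeightOneSpectrum.valuation_le_one _ _
    rw [rr_of_mem Q _ h1, rr_of_mem Q _ h2, rr_of_mem Q _ (mul_mem h1 h2), ← map_mul]
    rfl
  rw [vv_pos Q a ha]
  have hdv : Q.valuation E (algebraMap S E (d : S)) = 1 :=
    (HeightOneSpectrum.valuation_eq_one_iff_notMem Q).2 d.2
  have hva : Q.valuation E a = Q.valuation E (algebraMap S E n) := by
    rw [← hnd, map_mul, hdv, mul_one]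
  rw [hva, HeightOneSpectrum.valuation_lt_one_iff_mem]
  rw [rr_algebraMap Q n] at hmul
  constructor
  · intro h0
    rw [h0, zero_mul] at hmul
    exact Ideal.Quotient.eq_zero_iff_mem.1 hmul.symm
  · intro h0
    rw [Ideal.Quotient.eq_zero_iff_mem.2 h0] at hmul
    exact (mul_eq_zero.1 hmul).resolve_right hd

/-- The place attached to a prime of a Dedekind domain containing the field `k`. -/
theorem exists_plcOf {κ : Type*} [Field κ] (q : S ⧸ Q.asIdeal ≃+* κ) :
    ∃ w : Plc ((algebraMap S E).comp j) ((q : S ⧸ Q.asIdeal →+* κ).comp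
      ((Ideal.Quotient.mk Q.asIdeal).comp j)), ∀ a, w.v a = vv Q a := by
  obtain ⟨π, hπ⟩ := HeightOneSpectrum.valuation_exists_uniformizer E Q
  have hπ0 : π ≠ 0 := by
    rintro rfl
    rw [map_zero] at hπ
    exact absurd hπ (WithZero.exp_ne_zero).symm
  refine ⟨{
    v := vv Q
    r := fun a => q (rr Q a)
    ϖ := π
    v_mul := vv_mul Q
    v_add := ?_
    ϖ_ne := hπ0
    v_ϖ := ?_
    r_eq_zero := ?_
    r_zero := ?_
    r_add := ?_
    r_mul := ?_
    v_ι := ?_
    r_ι := ?_ }, fun a => rfl⟩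
  · intro a b ha hb hab
    rcases le_total (vv Q a) (vv Q b) with h | h
    · rw [min_eq_left h, vv_le Q _ _ ha hab]
      refine (Valuation.map_add _ a b).trans ?_
      rw [max_le_iff]
      exact ⟨le_rfl, (vv_le Q _ _ ha hb).1 h⟩
    · rw [min_eq_right h, vv_le Q _ _ hb hab]
      refine (Valuation.map_add _ a b).trans ?_
      rw [max_le_iff]
      exact ⟨(vv_le Q _ _ hb ha).1 h, le_rfl⟩
  · rw [vv, hπ, WithZero.log_exp]
    ring
  · intro a ha h
    rw [map_eq_zero_iff q q.injective]
    exact rr_eq_zero Q a ha h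
  · have := rr_algebraMap (E := E) Q 0
    rw [map_zero, map_zero] at this
    rw [this, map_zero]
  · intro a b ha hb
    have h1 := mem_of_int Q a ha
    have h2 := mem_of_int Q b hb
    rw [rr_of_mem Q _ h1, rr_of_mem Q _ h2, rr_of_mem Q _ (add_mem h1 h2), ← map_add, ← map_add]
    rfl
  · intro a b ha hb
    have h1 := mem_of_int Q a ha
    have h2 := mem_of_int Q b hb
    rw [rr_of_mem Q _ h1, rr_of_mem Q _ h2, rr_of_mem Q _ (mul_mem h1 h2), ← map_mul, ← map_mul]
    rfl
  · intro c hc
    have hu : IsUnit (j c) := (IsUnit.mk0 c hc).map j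
    rw [RingHom.comp_apply]
    have h1 : Q.valuation E (algebraMap S E (j c)) = 1 := by
      rw [HeightOneSpectrum.valuation_eq_one_iff_notMem]
      intro hm
      exact Q.isPrime.ne_top (Ideal.eq_top_of_isUnit_mem _ hm hu)
    rw [vv, h1, WithZero.log_one]
    rfl
  · intro c
    rw [RingHom.comp_apply, rr_algebraMap]
    rfl

end Pool.Agent.L0.W4
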