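import Pool.Agent.L0.W4.Exist2

/-!
# Odd places over a prime polynomial of odd degree, detected by the norm
-/

set_option autoImplicit false

open IsDedekindDomain HeightOneSpectrum Polynomial

universe u

namespace Pool.Agent.L0.W4

theorem exists_odd_prime {k K₀ E S : Type u} [Field k] [CharZero k] [Field K₀] [Algebra k[X] K₀]
    [IsFractionRing k[X] K₀] [Field E] [Algebra K₀ E] [FiniteDimensional K₀ E]
    [Algebra k[X] E] [IsScalarTower k[X] K₀ E]
    [CommRing S] [IsDedekindDomain S] [Algebra k[X] S] [Algebra S E] [IsScalarTower k[X] S E]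
    [IsIntegralClosure S k[X] E] [Module.Finite k[X] S] [Module.IsTorsionFree k[X] S]
    [IsFractionRing S E]
    (P0 : HeightOneSpectrum k[X]) (h : E) (h0 : h ≠ 0)
    (hv : Odd (vv P0 (Algebra.norm K₀ h))) :
    ∃ Q : HeightOneSpectrum S, Q.asIdeal.LiesOver P0.asIdeal ∧
      Odd (Q.asIdeal.inertiaDeg k[X]) ∧ Odd (vv Q h) := by
  classical
  obtain ⟨b, c, hc, rfl⟩ := IsFractionRing.div_surjective (A := S) h
  have hc0 : c ≠ 0 := nonZeroDivisors.ne_zero hc
  have hinj : Function.Injective (algebraMap S E) := IsFractionRing.injective S E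
  have hinj' : Function.Injective (algebraMap k[X] K₀) := IsFractionRing.injective k[X] K₀
  have hb0 : b ≠ 0 := by
    rintro rfl
    simp at h0
  have hbE : algebraMap S E b ≠ 0 := by rwa [ne_eq, map_eq_zero_iff _ hinj]
  have hcE : algebraMap S E c ≠ 0 := by rwa [ne_eq, map_eq_zero_iff _ hinj]
  have : Algebra.IsIntegral k[X] S := Algebra.IsIntegral.of_finite _ _
  have hN : ∀ x : S, algebraMap k[X] K₀ (Algebra.intNorm k[X] S x) =
      Algebra.norm K₀ (algebraMap S E x) := fun x => Algebra.algebraMap_intNorm x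
  have hNne : ∀ x : S, x ≠ 0 → Algebra.intNorm k[X] S x ≠ 0 := by
    intro x hx h1
    have h2 := hN x
    rw [h1, map_zero] at h2
    exact (Algebra.norm_ne_zero_iff.2 (by rwa [ne_eq, map_eq_zero_iff _ hinj])) h2.symm
  have hvN : ∀ x : S, x ≠ 0 → vv P0 (Algebra.norm K₀ (algebraMap S E x)) =
      cnt P0.asIdeal (Ideal.relNorm k[X] (Ideal.span {x})) := by
    intro x hx
    rw [← hN, vv_algebraMap _ _ (hNne x hx), Ideal.relNorm_singleton]
  have hP0m := P0.isMaximal
  let T := IsDedekindDomain.primesOverFinset P0.asIdeal S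
  have hT : ∀ Q : Ideal S, Q ∈ T ↔ Q.IsPrime ∧ Q.LiesOver P0.asIdeal := fun Q =>
    IsDedekindDomain.mem_primesOverFinset_iff P0.ne_bot S
  have hcn := cnt_relNorm (R := k[X]) (S := S) P0.asIdeal P0.ne_bot T hT
  have hspan : ∀ x : S, x ≠ 0 → Ideal.span {x} ≠ 0 := by
    intro x hx h1
    rw [Ideal.zero_eq_bot, Ideal.span_singleton_eq_bot] at h1
    exact hx h1
  have hmap : Algebra.norm K₀ (algebraMap S E b / algebraMap S E c) =
      Algebra.norm K₀ (algebraMap S E b) / Algebra.norm K₀ (algebraMap S E c) := by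
    rw [eq_div_iff (Algebra.norm_ne_zero_iff.2 hcE), ← map_mul, div_mul_cancel₀ _ hcE]
  have hNb : Algebra.norm K₀ (algebraMap S E b) ≠ 0 := Algebra.norm_ne_zero_iff.2 hbE
  have hNc : Algebra.norm K₀ (algebraMap S E c) ≠ 0 := Algebra.norm_ne_zero_iff.2 hcE
  have hdiv : ∀ {A F : Type u} [CommRing A] [IsDedekindDomain A] [Field F] [Algebra A F]
      [IsFractionRing A F] (P : HeightOneSpectrum A) (x y : F), x ≠ 0 → y ≠ 0 →
      vv P (x / y) = vv P x - vv P y := by
    intro A F _ _ _ _ _ P x y hx hy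
    have := vv_mul P (x / y) y (div_ne_zero hx hy) hy
    rw [div_mul_cancel₀ _ hy] at this
    omega
  rw [hmap, hdiv P0 _ _ hNb hNc, hvN b hb0, hvN c hc0, hcn _ (hspan b hb0), hcn _ (hspan c hc0)] at hv
  push_cast at hv
  rw [← Finset.sum_sub_distrib] at hv
  have hex : ∃ Q ∈ T, Odd (((cnt Q (Ideal.span {b}) : ℤ) * (Q.inertiaDeg k[X] : ℤ)) -
      ((cnt Q (Ideal.span {c}) : ℤ) * (Q.inertiaDeg k[X] : ℤ))) := by
    by_contra hcon
    push Not at hcon
    rw [← Int.not_even_iff_odd] at hv
    exact hv (Finset.even_sum _ fun Q hQ => Int.not_odd_iff_even.1 (hcon Q hQ))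
  obtain ⟨Q, hQT, hQ⟩ := hex
  obtain ⟨hQp, hQl⟩ := (hT Q).1 hQT
  have hQ0 : Q ≠ ⊥ := by
    rintro rfl
    apply P0.ne_bot
    rw [hQl.over]
    exact Ideal.comap_bot_of_injective _ (FaithfulSMul.algebraMap_injective k[X] S)
  refine ⟨⟨Q, hQp, hQ0⟩, hQl, ?_, ?_⟩
  · rw [← sub_mul, Int.odd_mul] at hQ
    exact_mod_cast hQ.2
  · rw [← sub_mul, Int.odd_mul] at hQ
    rw [hdiv _ _ _ hbE hcE, vv_algebraMap _ _ hb0, vv_algebraMap _ _ hc0]
    exact hQ.1

/-- Let `E` be a finite extension of the fraction field `K₀` of `k[X]`, `h ≠ 0` in `E` and `π` a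
prime polynomial of odd degree which occurs in the norm of `h` with odd exponent. Then some
discrete place of `E` over `π` has odd residue degree over `k` and odd value at `h`. -/
theorem exists_odd_place {k K₀ E : Type u} [Field k] [CharZero k] [Field K₀] [Algebra k[X] K₀]
    [IsFractionRing k[X] K₀] [Field E] [Algebra K₀ E] [FiniteDimensional K₀ E]
    (π : k[X]) (hodd : Odd π.natDegree)
    (P0 : HeightOneSpectrum k[X]) (hP0 : P0.asIdeal = Ideal.span {π}) (h : E) (h0 : h ≠ 0)
    (hv : Odd (vv P0 (Algebra.norm K₀ h))) :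
    ∃ (κ : Type u) (_ : Field κ) (_ : Algebra k κ), FiniteDimensional k κ ∧
      Odd (Module.finrank k κ) ∧
      ∃ w : Plc (((algebraMap K₀ E).comp (algebraMap k[X] K₀)).comp C) (algebraMap k κ),
        Odd (w.v h) ∧ (∀ b : k[X], w.Int (algebraMap K₀ E (algebraMap k[X] K₀ b))) ∧
        (algebraMap K₀ E (algebraMap k[X] K₀ π) = 0 ∨
          0 < w.v (algebraMap K₀ E (algebraMap k[X] K₀ π))) := by
  classical
  have : CharZero K₀ := by
    have h1 : Function.Injective ((algebraMap k[X] K₀).comp C) := RingHom.injective _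
    exact charZero_of_injective_ringHom h1
  let _ : Algebra k[X] E := ((algebraMap K₀ E).comp (algebraMap k[X] K₀)).toAlgebra
  have : IsScalarTower k[X] K₀ E := IsScalarTower.of_algebraMap_eq fun _ => rfl
  let S := integralClosure k[X] E
  have : IsDedekindDomain S := integralClosure.isDedekindDomain k[X] K₀ E
  have : Module.Finite k[X] S := IsIntegralClosure.finite k[X] K₀ E S
  have : IsFractionRing S E := integralClosure.isFractionRing_of_finite_extension K₀ E
  have hinjE : Function.Injective (algebraMap k[X] E) :=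
    (algebraMap K₀ E).injective.comp (IsFractionRing.injective k[X] K₀)
  have hinjS : Function.Injective (algebraMap k[X] S) := by
    intro x y hxy
    apply hinjE
    rw [IsScalarTower.algebraMap_apply k[X] S E, IsScalarTower.algebraMap_apply k[X] S E, hxy]
  have : FaithfulSMul k[X] S := (faithfulSMul_iff_algebraMap_injective _ _).2 hinjS
  have : Module.IsTorsionFree k[X] S := inferInstance
  obtain ⟨Q, hQl, hQf, hQv⟩ := exists_odd_prime (S := S) P0 h h0 hv
  have hQm := Q.isMaximal
  have hPm := P0.isMaximal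
  let _ : Field (S ⧸ Q.asIdeal) := Ideal.Quotient.field Q.asIdeal
  let _ : Field (k[X] ⧸ P0.asIdeal) := Ideal.Quotient.field P0.asIdeal
  have hfr : Q.asIdeal.inertiaDeg k[X] = Module.finrank (k[X] ⧸ P0.asIdeal) (S ⧸ Q.asIdeal) :=
    Ideal.inertiaDeg_eq_of_isMaximal P0.asIdeal Q.asIdeal
  have hfr2 : Module.finrank k (k[X] ⧸ P0.asIdeal) = π.natDegree := by
    rw [hP0]
    exact finrank_quotient_span_eq_natDegree
  let _ : Algebra k (S ⧸ Q.asIdeal) :=
    ((Ideal.Quotient.mk Q.asIdeal).comp ((algebraMap k[X] S).comp C)).toAlgebra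
  have : IsScalarTower k (k[X] ⧸ P0.asIdeal) (S ⧸ Q.asIdeal) := by
    refine IsScalarTower.of_algebraMap_eq fun x => ?_
    rfl
  have hfr3 := Module.finrank_mul_finrank k (k[X] ⧸ P0.asIdeal) (S ⧸ Q.asIdeal)
  have hoddf : Odd (Module.finrank k (S ⧸ Q.asIdeal)) := by
    rw [← hfr3, hfr2, ← hfr]
    exact hodd.mul hQf
  obtain ⟨w, hw⟩ := exists_plcOf (E := E) ((algebraMap k[X] S).comp C) Q
    (RingEquiv.refl (S ⧸ Q.asIdeal))
  have hint : ∀ b : S, w.Int (algebraMap S E b) := by
    intro b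
    by_cases hb : b = 0
    · left; rw [hb, map_zero]
    · right
      rw [hw, vv_algebraMap _ _ hb]
      exact Int.natCast_nonneg _
  refine ⟨S ⧸ Q.asIdeal, inferInstance, inferInstance,
    Module.finite_of_finrank_pos hoddf.pos, hoddf, w, ?_, ?_, ?_⟩
  · rw [hw]
    exact hQv
  · intro b
    exact hint (algebraMap k[X] S b)
  · right
    have hπ0 : π ≠ 0 := by
      rintro rfl
      apply P0.ne_bot
      rw [hP0]
      simp
    have hm : algebraMap k[X] S π ∈ Q.asIdeal := by
      have : π ∈ P0.asIdeal := by rw [hP0]; exact Ideal.mem_span_singleton_self π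
      rw [hQl.over] at this
      exact this
    have he : algebraMap K₀ E (algebraMap k[X] K₀ π) = algebraMap S E (algebraMap k[X] S π) := rfl
    have hne : algebraMap S E (algebraMap k[X] S π) ≠ 0 := by
      rw [← he, ← RingHom.comp_apply]
      intro h1
      exact hπ0 (hinjE (h1.trans (map_zero _).symm))
    rw [he, hw, vv_pos _ _ hne, HeightOneSpectrum.valuation_lt_one_iff_mem]
    exact hm

end Pool.Agent.L0.W4
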