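import Mathlib

/-!
# Springer's theorem for diagonal forms (odd-degree extensions keep anisotropy)
-/

set_option autoImplicit false

open Polynomial

namespace Pool.Agent.L0.W4

variable {F : Type*} [Field F] {m : ℕ}

/-- `∑ a_i f_i²` for polynomials. -/
noncomputable def qf (a : Fin m → F) (f : Fin m → F[X]) : F[X] := ∑ i, C (a i) * f i ^ 2

/-- degree of `∑ a_i f_i²` for an anisotropic form -/
theorem qf_natDegree (a : Fin m → F) (h : ∀ v : Fin m → F, ∑ i, a i * v i ^ 2 = 0 → v = 0)
    (f : Fin m → F[X]) (D : ℕ) (hD : ∀ i, (f i).natDegree ≤ D)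
    (hD' : ∃ i, (f i).coeff D ≠ 0) : (qf a f).natDegree = 2 * D ∧ qf a f ≠ 0 := by
  have hc : (qf a f).coeff (2 * D) = ∑ i, a i * (f i).coeff D ^ 2 := by
    rw [qf, finsetSum_coeff]
    refine Finset.sum_congr rfl fun i _ => ?_
    rw [coeff_C_mul, coeff_pow_of_natDegree_le (hD i)]
  have hne : (qf a f).coeff (2 * D) ≠ 0 := by
    rw [hc]
    intro h0
    obtain ⟨i, hi⟩ := hD'
    exact hi (congrFun (h _ h0) i)
  refine ⟨le_antisymm ?_ (le_natDegree_of_ne_zero hne), fun h0 => hne (by rw [h0, coeff_zero])⟩
  refine natDegree_sum_le_of_forall_le _ _ fun i _ => ?_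
  refine (natDegree_C_mul_le _ _).trans ?_
  refine natDegree_pow_le.trans ?_
  exact Nat.mul_le_mul le_rfl (hD i)

/-- a polynomial of odd degree has an irreducible factor of odd degree -/
theorem exists_odd_factor (p : F[X]) (h : Odd p.natDegree) :
    ∃ q : F[X], Irreducible q ∧ Odd q.natDegree ∧ q ∣ p := by
  have hp0 : p ≠ 0 := by rintro rfl; simp at h
  induction hn : p.natDegree using Nat.strong_induction_on generalizing p with
  | _ n ih =>
    have hu : ¬ IsUnit p := by
      intro hu
      rw [natDegree_eq_zero_of_isUnit hu] at h
      simp at h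
    obtain ⟨q, hq, hqp⟩ := WfDvdMonoid.exists_irreducible_factor hu hp0
    by_cases ho : Odd q.natDegree
    · exact ⟨q, hq, ho, hqp⟩
    · obtain ⟨s, rfl⟩ := hqp
      have hs0 : s ≠ 0 := right_ne_zero_of_mul hp0
      have hd := natDegree_mul hq.ne_zero hs0
      have hqd : 0 < q.natDegree := hq.natDegree_pos
      rw [hd] at h
      have hs : Odd s.natDegree := by
        rw [Nat.not_odd_iff_even] at ho
        rw [Nat.odd_add'] at h
        exact h.2 ho
      obtain ⟨q', h1, h2, h3⟩ := ih s.natDegree (by omega) s hs hs0 rfl
      exact ⟨q', h1, h2, h3.mul_left q⟩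

theorem springer_poly (a : Fin m → F) (h : ∀ v : Fin m → F, ∑ i, a i * v i ^ 2 = 0 → v = 0) :
    ∀ (n : ℕ) (g : F[X]), Odd n → Irreducible g → g.natDegree = n →
      ∀ f : Fin m → F[X], g ∣ qf a f → ∀ i, g ∣ f i := by
  classical
  intro n
  induction n using Nat.strong_induction_on with
  | _ n ih =>
    intro g hn hg hgn
    -- reduced vectors
    have key : ∀ (N : ℕ) (f : Fin m → F[X]), (∑ i, (f i).natDegree) ≤ N →
        (∀ i, (f i).natDegree < n) → g ∣ qf a f → f = 0 := by
      intro N
      induction N using Nat.strong_induction_on with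
      | _ N ihN =>
        intro f hN hlt hdvd
        by_contra hf
        have hex : ∃ i, f i ≠ 0 := by
          by_contra hc
          push Not at hc
          exact hf (funext hc)
        obtain ⟨i0, hi0⟩ := hex
        have : Nonempty (Fin m) := ⟨i0⟩
        -- max degree
        let s : Finset (Fin m) := Finset.univ.filter fun i => f i ≠ 0
        have hs : s.Nonempty := ⟨i0, by simp [s, hi0]⟩
        obtain ⟨i1, hi1, hmax⟩ := Finset.exists_max_image s (fun i => (f i).natDegree) hs
        have hi1' : f i1 ≠ 0 := by simpa [s] using hi1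
        obtain ⟨hdeg, hne⟩ := qf_natDegree a h f (f i1).natDegree
          (fun i => by
            by_cases hi : f i = 0
            · simp [hi]
            · exact hmax i (by simp [s, hi]))
          ⟨i1, by rw [coeff_natDegree]; exact leadingCoeff_ne_zero.2 hi1'⟩
        obtain ⟨e, he⟩ := hdvd
        have he0 : e ≠ 0 := by
          rintro rfl
          rw [mul_zero] at he
          exact hne he
        have hde : 2 * (f i1).natDegree = n + e.natDegree := by
          rw [← hdeg, he, natDegree_mul hg.ne_zero he0, hgn]
        have hlt1 := hlt i1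
        have hoe : Odd e.natDegree := by
          rcases hn with ⟨k, hk⟩
          refine ⟨(f i1).natDegree - k - 1, ?_⟩
          omega
        obtain ⟨q, hq, hqo, hqe⟩ := exists_odd_factor e hoe
        have hqn : q.natDegree < n := by
          have := natDegree_le_of_dvd hqe he0
          omega
        have hqS : q ∣ qf a f := by
          rw [he]
          exact hqe.mul_left g
        have hqf := ih q.natDegree hqn q hqo hq rfl f hqS
        choose f' hf' using hqf
        have hqf' : qf a f = q ^ 2 * qf a f' := by
          rw [qf, qf, Finset.mul_sum]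
          refine Finset.sum_congr rfl fun i _ => ?_
          rw [hf' i]
          ring
        have hcop : IsCoprime g q := by
          rw [hg.coprime_iff_not_dvd]
          intro hd
          have := natDegree_le_of_dvd hd hq.ne_zero
          omega
        have hdvd' : g ∣ qf a f' := by
          have h1 : g ∣ q ^ 2 * qf a f' := by
            rw [← hqf', he]
            exact dvd_mul_right _ _
          exact (hcop.pow_right (n := 2)).dvd_of_dvd_mul_left h1
        have hle : ∀ i, (f' i).natDegree ≤ (f i).natDegree := by
          intro i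
          by_cases hi : f' i = 0
          · simp [hi]
          · rw [hf' i, natDegree_mul hq.ne_zero hi]
            omega
        have hlt' : (f' i1).natDegree < (f i1).natDegree := by
          have hi : f' i1 ≠ 0 := by
            intro h0
            apply hi1'
            rw [hf' i1, h0, mul_zero]
          have := hq.natDegree_pos
          rw [hf' i1, natDegree_mul hq.ne_zero hi]
          omega
        have hsum : (∑ i, (f' i).natDegree) < ∑ i, (f i).natDegree :=
          Finset.sum_lt_sum (fun i _ => hle i) ⟨i1, Finset.mem_univ _, hlt'⟩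
        have := ihN (∑ i, (f' i).natDegree) (by omega) f' le_rfl
          (fun i => (hle i).trans_lt (hlt i)) hdvd'
        apply hi1'
        rw [hf' i1, this]
        simp
    intro f hf i
    have hg0 : g ≠ 0 := hg.ne_zero
    have hn0 : 0 < n := hn.pos
    have h1 := key _ (fun i => f i % g) le_rfl (fun i => by
      have := natDegree_mod_lt (f i) (q := g) (by omega)
      omega) (by
      have h2 : qf a (fun i => f i % g) = qf a f + g * (∑ i, C (a i) *
          (g * (f i / g) ^ 2 - 2 * (f i) * (f i / g))) := by
        rw [qf, qf, Finset.mul_sum, ← Finset.sum_add_distrib]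
        refine Finset.sum_congr rfl fun i _ => ?_
        have h3 : f i % g = f i - g * (f i / g) := by
          have := EuclideanDomain.div_add_mod (f i) g
          linear_combination this
        rw [h3]
        ring
      rw [h2]
      exact dvd_add hf (dvd_mul_right _ _))
    have h4 := congrFun h1 i
    exact EuclideanDomain.mod_eq_zero.1 h4

/-- **Springer.** -/
theorem springer {E : Type*} [CharZero F] [Field E] [Algebra F E] [FiniteDimensional F E]
    (hodd : Odd (Module.finrank F E)) (a : Fin m → F)
    (h : ∀ v : Fin m → F, ∑ i, a i * v i ^ 2 = 0 → v = 0)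
    (v : Fin m → E) (hv : ∑ i, algebraMap F E (a i) * v i ^ 2 = 0) : v = 0 := by
  obtain ⟨θ, hθ⟩ := Field.exists_primitive_element F E
  have hint : IsIntegral F θ := Algebra.IsIntegral.isIntegral θ
  have hdeg : (minpoly F θ).natDegree = Module.finrank F E := by
    rw [← IntermediateField.adjoin.finrank hint, hθ, IntermediateField.finrank_top']
  have hsurj : ∀ x : E, ∃ f : F[X], aeval θ f = x := by
    intro x
    have hx : x ∈ IntermediateField.adjoin F {θ} := by rw [hθ]; trivial
    have := (IntermediateField.adjoin_simple_toSubalgebra_of_isAlgebraic hint.isAlgebraic).le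
      (show x ∈ (IntermediateField.adjoin F {θ}).toSubalgebra from hx)
    rw [Algebra.adjoin_singleton_eq_range_aeval] at this
    exact this
  choose f hf using fun i => hsurj (v i)
  have hd : minpoly F θ ∣ qf a f := by
    apply minpoly.dvd
    rw [qf, map_sum, ← hv]
    refine Finset.sum_congr rfl fun i _ => ?_
    rw [map_mul, map_pow, hf, aeval_C]
  have := springer_poly a h _ (minpoly F θ) (hdeg ▸ hodd) (minpoly.irreducible hint) hdeg f hd
  funext i
  obtain ⟨g, hg⟩ := this i
  rw [← hf i, hg, map_mul, minpoly.aeval, zero_mul]
  rfl

end Pool.Agent.L0.W4
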