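import Pool.Agent.L0.W4.Exist3
import Pool.Agent.L0.W4.Springer

/-!
# Odd places of odd extensions of `k(X)`
-/

set_option autoImplicit false

open IsDedekindDomain HeightOneSpectrum Polynomial

universe u

namespace Pool.Agent.L0.W4

section hos

variable {k : Type u} [Field k]

/-- the prime of `k[X]` given by an irreducible polynomial -/
noncomputable def hos (π : k[X]) (hπ : Irreducible π) : HeightOneSpectrum k[X] where
  asIdeal := Ideal.span {π}
  isPrime := (Ideal.span_singleton_prime hπ.ne_zero).2 hπ.prime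
  ne_bot := by rw [ne_eq, Ideal.span_singleton_eq_bot]; exact hπ.ne_zero

variable {K₀ : Type u} [Field K₀] [Algebra k[X] K₀] [IsFractionRing k[X] K₀]

theorem vv_hos_self (π : k[X]) (hπ : Irreducible π) :
    vv (hos π hπ) (algebraMap k[X] K₀ π) = 1 := by
  rw [vv_algebraMap _ _ hπ.ne_zero]
  have := cnt_self ((Ideal.prime_of_isPrime (hos π hπ).ne_bot (hos π hπ).isPrime))
  exact_mod_cast this

theorem vv_hos_pos (π : k[X]) (hπ : Irreducible π) (p : k[X]) (hp : p ≠ 0) :
    0 < vv (hos π hπ) (algebraMap k[X] K₀ p) ↔ π ∣ p := by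
  have hne : algebraMap k[X] K₀ p ≠ 0 := by
    rwa [ne_eq, map_eq_zero_iff _ (IsFractionRing.injective k[X] K₀)]
  rw [vv_pos _ _ hne, HeightOneSpectrum.valuation_lt_one_iff_mem]
  exact Ideal.mem_span_singleton

theorem vv_hos_nonneg (π : k[X]) (hπ : Irreducible π) (p : k[X]) (hp : p ≠ 0) :
    0 ≤ vv (hos π hπ) (algebraMap k[X] K₀ p) := by
  rw [vv_algebraMap _ _ hp]
  exact Int.natCast_nonneg _

/-- a nonzero polynomial of odd degree has a prime factor of odd degree and odd exponent -/
theorem exists_odd_exponent (p : k[X]) (hodd : Odd p.natDegree) :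
    ∃ (π : k[X]) (hπ : Irreducible π), Odd π.natDegree ∧
      Odd (vv (hos π hπ) (algebraMap k[X] K₀ p)) := by
  induction hn : p.natDegree using Nat.strong_induction_on generalizing p with
  | _ n ih =>
    have hp0 : p ≠ 0 := by rintro rfl; simp at hodd
    obtain ⟨q, hq, hqo, hqp⟩ := exists_odd_factor p hodd
    by_cases ho : Odd (vv (hos q hq) (algebraMap k[X] K₀ p))
    · exact ⟨q, hq, hqo, ho⟩
    obtain ⟨s, rfl⟩ := hqp
    have hs0 : s ≠ 0 := right_ne_zero_of_mul hp0
    have hinj : ∀ x : k[X], x ≠ 0 → algebraMap k[X] K₀ x ≠ 0 := fun x hx => by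
      rwa [ne_eq, map_eq_zero_iff _ (IsFractionRing.injective k[X] K₀)]
    rw [map_mul, vv_mul _ _ _ (hinj _ hq.ne_zero) (hinj _ hs0), vv_hos_self] at ho
    have h1 := vv_hos_nonneg (K₀ := K₀) q hq s hs0
    have h2 : 0 < vv (hos q hq) (algebraMap k[X] K₀ s) := by
      rcases h1.lt_or_eq with h | h
      · exact h
      · exfalso
        apply ho
        rw [← h]
        decide
    obtain ⟨t, rfl⟩ := (vv_hos_pos (K₀ := K₀) q hq s hs0).1 h2
    have ht0 : t ≠ 0 := right_ne_zero_of_mul hs0
    have hd : (q * (q * t)).natDegree = 2 * q.natDegree + t.natDegree := by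
      rw [natDegree_mul hq.ne_zero hs0, natDegree_mul hq.ne_zero ht0]
      ring
    rw [hd] at hodd hn
    have hto : Odd t.natDegree := by
      rcases hodd with ⟨r, hr⟩
      exact ⟨r - q.natDegree, by omega⟩
    have := hq.natDegree_pos
    obtain ⟨π, hπ, h3, h4⟩ := ih t.natDegree (by omega) t hto rfl
    refine ⟨π, hπ, h3, ?_⟩
    rw [map_mul, map_mul, vv_mul _ _ _ (hinj _ hq.ne_zero)
      (mul_ne_zero (hinj _ hq.ne_zero) (hinj _ ht0)), vv_mul _ _ _ (hinj _ hq.ne_zero) (hinj _ ht0)]
    rcases h4 with ⟨r, hr⟩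
    refine ⟨r + vv (hos π hπ) (algebraMap k[X] K₀ q), ?_⟩
    rw [hr]
    ring

end hos

section inv

variable (k : Type u) [Field k]

/-- evaluation at `X⁻¹` -/
noncomputable def evInv : k[X] →+* RatFunc k := (aeval (RatFunc.X : RatFunc k)⁻¹ : k[X] →ₐ[k] RatFunc k)

theorem evInv_C (c : k) : evInv k (C c) = RatFunc.C c := by
  simp [evInv]

theorem evInv_X : evInv k X = (RatFunc.X)⁻¹ := by
  simp [evInv]

/-- `X^d` times the evaluation of the reverse at `X⁻¹` -/
theorem evInv_reverse (p : k[X]) :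
    algebraMap k[X] (RatFunc k) p = RatFunc.X ^ p.natDegree * evInv k p.reverse := by
  let _ : Invertible (RatFunc.X : RatFunc k) := invertibleOfNonzero RatFunc.X_ne_zero
  have h := eval₂_reverse_mul_pow (RatFunc.C : k →+* RatFunc k) (RatFunc.X : RatFunc k) p
  have h1 : (eval₂RingHom (RatFunc.C : k →+* RatFunc k) (RatFunc.X : RatFunc k)) =
      algebraMap k[X] (RatFunc k) := by
    apply Polynomial.ringHom_ext
    · intro a; simp
    · simp
  have h2 : (eval₂RingHom (RatFunc.C : k →+* RatFunc k) (RatFunc.X : RatFunc k)⁻¹) =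
      evInv k := by
    apply Polynomial.ringHom_ext
    · intro a; rw [evInv_C]; simp
    · rw [evInv_X]; simp
  rw [← h1, ← h2, coe_eval₂RingHom, coe_eval₂RingHom, ← h, invOf_eq_inv, mul_comm]

theorem evInv_eq (p : k[X]) :
    evInv k p = algebraMap k[X] (RatFunc k) p.reverse * ((RatFunc.X)⁻¹) ^ p.natDegree := by
  let _ : Invertible (RatFunc.X : RatFunc k)⁻¹ :=
    invertibleOfNonzero (inv_ne_zero RatFunc.X_ne_zero)
  have h := eval₂_reverse_mul_pow (RatFunc.C : k →+* RatFunc k) (RatFunc.X : RatFunc k)⁻¹ p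
  have h1 : (eval₂RingHom (RatFunc.C : k →+* RatFunc k) (RatFunc.X : RatFunc k)) =
      algebraMap k[X] (RatFunc k) := by
    apply Polynomial.ringHom_ext
    · intro a; simp
    · simp
  have h2 : (eval₂RingHom (RatFunc.C : k →+* RatFunc k) (RatFunc.X : RatFunc k)⁻¹) =
      evInv k := by
    apply Polynomial.ringHom_ext
    · intro a; rw [evInv_C]; simp
    · rw [evInv_X]; simp
  rw [← h1, ← h2, coe_eval₂RingHom, coe_eval₂RingHom, ← h, invOf_eq_inv, inv_inv]

theorem evInv_injective : Function.Injective (evInv k) := by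
  rw [injective_iff_map_eq_zero]
  intro p hp
  rw [evInv_eq, mul_eq_zero] at hp
  rcases hp with hp | hp
  · rw [map_eq_zero_iff _ (IsFractionRing.injective k[X] (RatFunc k))] at hp
    rwa [reverse_eq_zero] at hp
  · exact absurd hp (pow_ne_zero _ (inv_ne_zero RatFunc.X_ne_zero))

/-- `k(X)` as the fraction field of `k[X⁻¹]` -/
def KInv : Type u := RatFunc k

noncomputable instance : Field (KInv k) := inferInstanceAs (Field (RatFunc k))

noncomputable instance : Algebra k[X] (KInv k) := (evInv k).toAlgebra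

variable {k} in
/-- the identity `k(X) → k(X)` -/
def toInv (a : RatFunc k) : KInv k := a

theorem algebraMap_KInv (p : k[X]) : algebraMap k[X] (KInv k) p = evInv k p := rfl

instance : IsFractionRing k[X] (KInv k) := by
  have hf : FaithfulSMul k[X] (KInv k) :=
    (faithfulSMul_iff_algebraMap_injective _ _).2 (evInv_injective k)
  refine IsFractionRing.of_field k[X] (KInv k) fun z => ?_
  have hz : algebraMap k[X] (RatFunc k) (RatFunc.num z) / algebraMap k[X] (RatFunc k)
      (RatFunc.denom z) = z := RatFunc.num_div_denom (z : RatFunc k)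
  have hX : (RatFunc.X : RatFunc k) = (evInv k X)⁻¹ := by rw [evInv_X, inv_inv]
  have hX0 : evInv k X ≠ 0 := by rw [evInv_X]; exact inv_ne_zero RatFunc.X_ne_zero
  have hB : evInv k (RatFunc.denom z).reverse ≠ 0 := by
    rw [ne_eq, map_eq_zero_iff _ (evInv_injective k), reverse_eq_zero]
    exact RatFunc.denom_ne_zero z
  refine ⟨(RatFunc.num z).reverse * X ^ (RatFunc.denom z).natDegree,
    (RatFunc.denom z).reverse * X ^ (RatFunc.num z).natDegree, ?_⟩
  change (z : RatFunc k) = evInv k _ / evInv k _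
  rw [← hz]
  conv_lhs => rw [evInv_reverse k (RatFunc.num z), evInv_reverse k (RatFunc.denom z), hX]
  rw [hz, map_mul, map_mul, map_pow, map_pow]
  generalize evInv k X = t at hX0
  rw [inv_pow, inv_pow]
  field_simp

/-- the value at infinity -/
theorem vv_KInv_polynomial (p : k[X]) (hp : p ≠ 0) :
    vv (E := KInv k) (hos (X : k[X]) irreducible_X) (toInv (algebraMap k[X] (RatFunc k) p)) =
      - (p.natDegree : ℤ) := by
  have h : toInv (algebraMap k[X] (RatFunc k) p) =
      ((algebraMap k[X] (KInv k) X)⁻¹) ^ p.natDegree * algebraMap k[X] (KInv k) p.reverse := by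
    change (algebraMap k[X] (RatFunc k) p : RatFunc k) = (evInv k X)⁻¹ ^ p.natDegree * evInv k _
    rw [evInv_reverse k p, evInv_X, inv_inv]
  have hinj : ∀ x : k[X], x ≠ 0 → algebraMap k[X] (KInv k) x ≠ 0 := fun x hx => by
    rwa [ne_eq, map_eq_zero_iff _ (IsFractionRing.injective k[X] (KInv k))]
  have hr : p.reverse ≠ 0 := by rwa [ne_eq, reverse_eq_zero]
  have hX := hinj X X_ne_zero
  have hv1 : vv (E := KInv k) (hos (X : k[X]) irreducible_X) (algebraMap k[X] (KInv k) p.reverse) = 0 := by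
    have h1 := vv_hos_nonneg (K₀ := KInv k) X irreducible_X p.reverse hr
    have h2 := vv_hos_pos (K₀ := KInv k) X irreducible_X p.reverse hr
    have h3 : ¬ (X : k[X]) ∣ p.reverse := by
      rw [X_dvd_iff, coeff_zero_reverse]
      exact leadingCoeff_ne_zero.2 hp
    by_contra h4
    exact h3 (h2.1 (lt_of_le_of_ne h1 (Ne.symm h4)))
  have hpow : ∀ (n : ℕ) (a : KInv k), a ≠ 0 →
      vv (E := KInv k) (hos (X : k[X]) irreducible_X) (a ^ n) = n * vv (hos (X : k[X]) irreducible_X) a := by
    intro n a ha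
    induction n with
    | zero =>
      rw [pow_zero, vv, map_one, WithZero.log_one]
      simp
    | succ n ih =>
      rw [pow_succ, vv_mul _ _ _ (pow_ne_zero _ ha) ha, ih]
      push_cast
      ring
  have hinv : vv (E := KInv k) (hos (X : k[X]) irreducible_X) (algebraMap k[X] (KInv k) X)⁻¹ = -1 := by
    have h1 := vv_mul (hos (X : k[X]) irreducible_X) (algebraMap k[X] (KInv k) X)
      (algebraMap k[X] (KInv k) X)⁻¹ hX (inv_ne_zero hX)
    rw [mul_inv_cancel₀ hX, vv_hos_self, vv, map_one, WithZero.log_one] at h1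
    omega
  rw [h, vv_mul _ _ _ (pow_ne_zero _ (inv_ne_zero hX)) (hinj _ hr), hv1,
    hpow _ _ (inv_ne_zero hX), hinv]
  ring

end inv

end Pool.Agent.L0.W4
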