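import Pool.Agent.L0.W4.Exist4

/-!
# The two existence theorems for odd places
-/

set_option autoImplicit false

open IsDedekindDomain HeightOneSpectrum Polynomial

universe u

namespace Pool.Agent.L0.W4

/-- the base field inside an extension of `k(X)` -/
noncomputable def bse (k E : Type u) [Field k] [Field E] [Algebra (RatFunc k) E] : k →+* E :=
  (algebraMap (RatFunc k) E).comp (RatFunc.C : k →+* RatFunc k)

/-- the polynomials inside an extension of `k(X)` -/
noncomputable def pol (k E : Type u) [Field k] [Field E] [Algebra (RatFunc k) E] : k[X] →+* E :=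
  (algebraMap (RatFunc k) E).comp (algebraMap k[X] (RatFunc k))

variable {k E : Type u} [Field k] [CharZero k] [Field E] [Algebra (RatFunc k) E]
  [FiniteDimensional (RatFunc k) E]

omit [CharZero k] [FiniteDimensional (RatFunc k) E] in
theorem pol_injective : Function.Injective (pol k E) :=
  (algebraMap (RatFunc k) E).injective.comp (IsFractionRing.injective k[X] (RatFunc k))

omit [CharZero k] [FiniteDimensional (RatFunc k) E] in
theorem pol_C (c : k) : pol k E (C c) = bse k E c := by
  simp [pol, bse]

/-- **Odd place over `X = c`.** -/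
theorem exists_place_at (hodd : Odd (Module.finrank (RatFunc k) E)) (c : k) :
    ∃ (κ : Type u) (_ : Field κ) (_ : Algebra k κ), FiniteDimensional k κ ∧
      Odd (Module.finrank k κ) ∧
      ∃ w : Plc (bse k E) (algebraMap k κ),
        Odd (w.v (pol k E (X - C c))) ∧ (∀ b : k[X], w.Int (pol k E b)) ∧
        0 < w.v (pol k E (X - C c)) := by
  have hirr : Irreducible (X - C c) := irreducible_X_sub_C c
  have hne : pol k E (X - C c) ≠ 0 := by
    rw [ne_eq, map_eq_zero_iff _ pol_injective]
    exact hirr.ne_zero
  have hnorm : Algebra.norm (RatFunc k) (pol k E (X - C c)) =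
      (algebraMap k[X] (RatFunc k) (X - C c)) ^ Module.finrank (RatFunc k) E := by
    rw [pol, RingHom.comp_apply, Algebra.norm_algebraMap]
  have hne' : algebraMap k[X] (RatFunc k) (X - C c) ≠ 0 := by
    rw [ne_eq, map_eq_zero_iff _ (IsFractionRing.injective k[X] (RatFunc k))]
    exact hirr.ne_zero
  have hpow : ∀ n : ℕ, vv (hos (X - C c) hirr) ((algebraMap k[X] (RatFunc k) (X - C c)) ^ n) = n := by
    intro n
    induction n with
    | zero =>
      rw [pow_zero, vv, map_one, WithZero.log_one]
      simp
    | succ n ih =>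
      rw [pow_succ, vv_mul _ _ _ (pow_ne_zero _ hne') hne', ih, vv_hos_self]
      push_cast
      ring
  have hv : Odd (vv (hos (X - C c) hirr) (Algebra.norm (RatFunc k) (pol k E (X - C c)))) := by
    rw [hnorm, hpow]
    exact_mod_cast hodd
  obtain ⟨κ, i1, i2, i3, i4, w, h1, h2, h3⟩ := exists_odd_place (K₀ := RatFunc k) (E := E)
    (X - C c) (by rw [natDegree_X_sub_C]; exact odd_one) (hos (X - C c) hirr) rfl _ hne hv
  have hι : ((algebraMap (RatFunc k) E).comp (algebraMap k[X] (RatFunc k))).comp C = bse k E := by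
    ext a
    simp [bse]
  have key : ∀ (ι' : k →+* E) (_ : ι' = bse k E) (w : Plc ι' (algebraMap k κ)),
      Odd (w.v (pol k E (X - C c))) → (∀ b : k[X], w.Int (pol k E b)) →
      (0 < w.v (pol k E (X - C c))) →
      ∃ w : Plc (bse k E) (algebraMap k κ),
        Odd (w.v (pol k E (X - C c))) ∧ (∀ b : k[X], w.Int (pol k E b)) ∧
        0 < w.v (pol k E (X - C c)) := by
    rintro ι' rfl w h1 h2 h3
    exact ⟨w, h1, h2, h3⟩
  exact ⟨κ, i1, i2, i3, i4, key _ hι w h1 h2 (h3.resolve_left hne)⟩

/-- **Parity lemma.** An element of an odd extension of `k(X)` cannot have, at every discrete place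
of odd residue degree over `k`, the value `min 0 (v X)`. -/
theorem exists_place_parity (hodd : Odd (Module.finrank (RatFunc k) E)) (f : E) (hf : f ≠ 0) :
    ∃ (κ : Type u) (_ : Field κ) (_ : Algebra k κ), FiniteDimensional k κ ∧
      Odd (Module.finrank k κ) ∧
      ∃ w : Plc (bse k E) (algebraMap k κ), w.v f ≠ min 0 (w.v (pol k E X)) := by
  classical
  have hX0 : pol k E X ≠ 0 := by
    rw [ne_eq, map_eq_zero_iff _ pol_injective]
    exact X_ne_zero
  set N : RatFunc k := Algebra.norm (RatFunc k) f with hN
  have hN0 : N ≠ 0 := Algebra.norm_ne_zero_iff.2 hf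
  by_cases hc : ∃ (π : k[X]) (hπ : Irreducible π), Odd π.natDegree ∧ Odd (vv (hos π hπ) N)
  · obtain ⟨π, hπ, h1, h2⟩ := hc
    obtain ⟨κ, i1, i2, i3, i4, w, h3, h4, h5⟩ := exists_odd_place (K₀ := RatFunc k) (E := E)
      π h1 (hos π hπ) rfl f hf h2
    have hι : ((algebraMap (RatFunc k) E).comp (algebraMap k[X] (RatFunc k))).comp C = bse k E := by
      ext a
      simp [bse]
    have key : ∀ (ι' : k →+* E) (_ : ι' = bse k E) (w : Plc ι' (algebraMap k κ)),
        Odd (w.v f) → (∀ b : k[X], w.Int (pol k E b)) →
        ∃ w : Plc (bse k E) (algebraMap k κ), w.v f ≠ min 0 (w.v (pol k E X)) := by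
      rintro ι' rfl w h1 h2
      refine ⟨w, ?_⟩
      have h6 := (h2 X).resolve_left hX0
      rw [min_eq_left h6]
      rintro h0
      rw [h0] at h1
      exact absurd h1 (by decide)
    exact ⟨κ, i1, i2, i3, i4, key _ hι w h3 h4⟩
  · -- the degree of the norm is even
    push Not at hc
    have hnum : RatFunc.num N ≠ 0 := RatFunc.num_ne_zero hN0
    have hden : RatFunc.denom N ≠ 0 := RatFunc.denom_ne_zero N
    have hinj : ∀ x : k[X], x ≠ 0 → algebraMap k[X] (RatFunc k) x ≠ 0 := fun x hx => by
      rwa [ne_eq, map_eq_zero_iff _ (IsFractionRing.injective k[X] (RatFunc k))]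
    have hmulN : N * algebraMap k[X] (RatFunc k) (RatFunc.denom N) =
        algebraMap k[X] (RatFunc k) (RatFunc.num N) := by
      have := RatFunc.num_div_denom N
      rw [div_eq_iff (hinj _ hden)] at this
      exact this.symm
    have heven : Even (RatFunc.num N * RatFunc.denom N).natDegree := by
      by_contra ho
      rw [Nat.not_even_iff_odd] at ho
      obtain ⟨π, hπ, h1, h2⟩ := exists_odd_exponent (K₀ := RatFunc k) _ ho
      apply hc π hπ h1
      have h3 : N * (algebraMap k[X] (RatFunc k) (RatFunc.denom N) *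
          algebraMap k[X] (RatFunc k) (RatFunc.denom N)) =
          algebraMap k[X] (RatFunc k) (RatFunc.num N * RatFunc.denom N) := by
        rw [map_mul, ← hmulN]
        ring
      rw [← h3, vv_mul _ _ _ hN0 (mul_ne_zero (hinj _ hden) (hinj _ hden)),
        vv_mul _ _ _ (hinj _ hden) (hinj _ hden)] at h2
      rcases h2 with ⟨r, hr⟩
      exact ⟨r - vv (hos π hπ) (algebraMap k[X] (RatFunc k) (RatFunc.denom N)), by omega⟩
    rw [natDegree_mul hnum hden] at heven
    -- the inverted structure
    let _ : Algebra (KInv k) E := inferInstanceAs (Algebra (RatFunc k) E)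
    have : FiniteDimensional (KInv k) E := inferInstanceAs (FiniteDimensional (RatFunc k) E)
    have hYE : (algebraMap (KInv k) E) (algebraMap k[X] (KInv k) X) = (pol k E X)⁻¹ := by
      change (algebraMap (RatFunc k) E) (evInv k X) = _
      rw [evInv_X, map_inv₀, pol, RingHom.comp_apply, RatFunc.algebraMap_X]
    set h : E := f * (pol k E X)⁻¹ with hh
    have h0 : h ≠ 0 := mul_ne_zero hf (inv_ne_zero hX0)
    have hnorm : (Algebra.norm (RatFunc k) h : RatFunc k) =
        N * ((RatFunc.X : RatFunc k)⁻¹) ^ Module.finrank (RatFunc k) E := by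
      rw [hh, map_mul, ← hN]
      congr 1
      have : (pol k E X)⁻¹ = algebraMap (RatFunc k) E (RatFunc.X⁻¹) := by
        rw [map_inv₀, pol, RingHom.comp_apply, RatFunc.algebraMap_X]
      rw [this, Algebra.norm_algebraMap]
    have hv : Odd (vv (E := KInv k) (hos (X : k[X]) irreducible_X)
        (Algebra.norm (KInv k) h)) := by
      have e1 : (Algebra.norm (KInv k) h : KInv k) =
          toInv N * (algebraMap k[X] (KInv k) X) ^ Module.finrank (RatFunc k) E := by
        have e0 : (Algebra.norm (RatFunc k) h : RatFunc k) =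
            N * (evInv k X) ^ (Module.finrank (RatFunc k) E) := by rw [hnorm, evInv_X]
        exact e0
      have hXK : (algebraMap k[X] (KInv k) X) ≠ 0 := by
        rw [ne_eq, map_eq_zero_iff _ (IsFractionRing.injective k[X] (KInv k))]
        exact X_ne_zero
      have hN0' : toInv N ≠ 0 := hN0
      have hpow : ∀ n : ℕ, vv (E := KInv k) (hos (X : k[X]) irreducible_X)
          ((algebraMap k[X] (KInv k) X) ^ n) = n := by
        intro n
        induction n with
        | zero =>
          rw [pow_zero, vv, map_one, WithZero.log_one]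
          simp
        | succ n ih =>
          rw [pow_succ, vv_mul _ _ _ (pow_ne_zero _ hXK) hXK, ih, vv_hos_self]
          push_cast
          ring
      have hNv : vv (E := KInv k) (hos (X : k[X]) irreducible_X) (toInv N) =
          - ((RatFunc.num N).natDegree : ℤ) + ((RatFunc.denom N).natDegree : ℤ) := by
        have h1 := vv_KInv_polynomial k _ hnum
        have h2 := vv_KInv_polynomial k _ hden
        have h3 : toInv N * toInv (algebraMap k[X] (RatFunc k) (RatFunc.denom N)) =
            toInv (algebraMap k[X] (RatFunc k) (RatFunc.num N)) := hmulN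
        have h4 := vv_mul (hos (X : k[X]) irreducible_X) (toInv N)
          (toInv (algebraMap k[X] (RatFunc k) (RatFunc.denom N))) hN0' (hinj _ hden)
        rw [h3, h1, h2] at h4
        omega
      rw [e1, vv_mul _ _ _ hN0' (pow_ne_zero _ hXK), hNv, hpow]
      rcases heven with ⟨r, hr⟩
      rcases hodd with ⟨t, ht⟩
      refine ⟨(RatFunc.denom N).natDegree - r + t, ?_⟩
      omega
    obtain ⟨κ, i1, i2, i3, i4, w, h3, h4, h5⟩ := exists_odd_place (K₀ := KInv k) (E := E)
      X (by rw [natDegree_X]; exact odd_one) (hos X irreducible_X) rfl h h0 hv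
    have hι : ((algebraMap (KInv k) E).comp (algebraMap k[X] (KInv k))).comp C = bse k E := by
      ext a
      change algebraMap (RatFunc k) E (evInv k (C a)) = _
      rw [evInv_C]
      rfl
    rw [hYE] at h5
    have key : ∀ (ι' : k →+* E) (_ : ι' = bse k E) (w : Plc ι' (algebraMap k κ)),
        Odd (w.v h) → (pol k E X)⁻¹ = 0 ∨ 0 < w.v (pol k E X)⁻¹ →
        ∃ w : Plc (bse k E) (algebraMap k κ), w.v f ≠ min 0 (w.v (pol k E X)) := by
      rintro ι' rfl w h1 h2
      refine ⟨w, ?_⟩
      have h6 := h2.resolve_left (inv_ne_zero hX0)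
      rw [w.v_inv _ hX0] at h6
      rw [min_eq_right (by omega)]
      rw [hh, w.v_mul _ _ hf (inv_ne_zero hX0), w.v_inv _ hX0] at h1
      rintro h0
      rw [h0] at h1
      have : w.v (pol k E X) + -w.v (pol k E X) = 0 := by ring
      rw [this] at h1
      exact absurd h1 (by decide)
    exact ⟨κ, i1, i2, i3, i4, key _ hι w h3 h5⟩

end Pool.Agent.L0.W4
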