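import Pool.Agent.L0.W4.Real

/-!
# The local lemma
-/

set_option autoImplicit false

open Polynomial

universe u

namespace Pool.Agent.L0.W4

namespace Plc

variable {L E κ : Type*} [Field L] [Field E] [Field κ] {ι : L →+* E} {ρ : L →+* κ}
  (w : Plc ι ρ)

/-- Elements of even value whose leading coefficient is a sum of squares. -/
def P (s : E) : Prop := s ≠ 0 ∧ ∃ m : ℤ, w.v s = 2 * m ∧ IsSumSq (w.r (w.ϖ ^ (-(2 * m)) * s))

theorem int_scale' {s : E} {m : ℤ} (h : w.v s = m) : w.Int (w.ϖ ^ (-m) * s) :=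
  w.int_scale (Or.inr h.ge)

theorem P_sq {a : E} (ha : a ≠ 0) : w.P (a ^ 2) := by
  refine ⟨pow_ne_zero _ ha, w.v a, by rw [w.v_pow _ ha]; push_cast; ring, ?_⟩
  have h : w.ϖ ^ (-(2 * w.v a)) * a ^ 2 = (w.ϖ ^ (-w.v a) * a) ^ 2 := by
    have h0 : w.ϖ ^ (-(2 * w.v a)) = (w.ϖ ^ (-w.v a)) ^ 2 := by
      rw [← zpow_natCast, ← zpow_mul]
      congr 1
      push_cast
      ring
    rw [h0]
    ring
  rw [h, w.r_pow (w.int_scale' rfl), sq]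
  exact IsSumSq.mul_self _

theorem P_mul {a b : E} (ha : w.P a) (hb : w.P b) : w.P (a * b) := by
  obtain ⟨ha0, m, hm, ham⟩ := ha
  obtain ⟨hb0, n, hn, hbn⟩ := hb
  refine ⟨mul_ne_zero ha0 hb0, m + n, by rw [w.v_mul _ _ ha0 hb0]; omega, ?_⟩
  have h : w.ϖ ^ (-(2 * (m + n))) * (a * b) =
      (w.ϖ ^ (-(2 * m)) * a) * (w.ϖ ^ (-(2 * n)) * b) := by
    have : w.ϖ ^ (-(2 * (m + n))) = w.ϖ ^ (-(2 * m)) * w.ϖ ^ (-(2 * n)) := by
      rw [← zpow_add₀ w.ϖ_ne]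
      congr 1
      ring
    rw [this]
    ring
  rw [h, w.r_mul _ _ (w.int_scale' hm) (w.int_scale' hn)]
  exact ham.mul hbn

theorem P_add_aux (hR : Rl κ) {a b : E} (ha0 : a ≠ 0) {m n : ℤ} (hm : w.v a = 2 * m)
    (ham : IsSumSq (w.r (w.ϖ ^ (-(2 * m)) * a))) (hn : w.v b = 2 * n)
    (hbn : IsSumSq (w.r (w.ϖ ^ (-(2 * n)) * b))) (hmn : m ≤ n) : w.P (a + b) := by
  have h1 : w.ϖ ^ (-(2 * m)) * (a + b) = w.ϖ ^ (-(2 * m)) * a + w.ϖ ^ (-(2 * m)) * b := by ring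
  have hbi : w.Int (w.ϖ ^ (-(2 * m)) * b) := w.int_scale (Or.inr (by omega))
  have hb' : IsSumSq (w.r (w.ϖ ^ (-(2 * m)) * b)) := by
    rcases hmn.lt_or_eq with h | h
    · rw [(w.r_scale_eq_zero_iff (Or.inr (by omega))).2 (Or.inr (by omega))]
      exact IsSumSq.zero
    · rw [h]; exact hbn
  have h2 : w.r (w.ϖ ^ (-(2 * m)) * (a + b)) ≠ 0 := by
    rw [h1, w.r_add _ _ (w.int_scale' hm) hbi]
    intro h0
    exact w.r_scale_ne ha0 hm (hR _ _ ham hb' h0)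
  have h3 := w.v_of_r_ne (a := w.ϖ ^ (-(2 * m)) * (a + b))
    (by rw [h1]; exact w.int_add (w.int_scale' hm) hbi) h2
  have h4 : a + b ≠ 0 := right_ne_zero_of_mul h3.1
  refine ⟨h4, m, ?_, ?_⟩
  · have := h3.2
    rw [w.v_scale h4] at this
    omega
  · rw [h1, w.r_add _ _ (w.int_scale' hm) hbi]
    exact ham.add hb'

theorem P_add (hR : Rl κ) {a b : E} (ha : w.P a) (hb : w.P b) : w.P (a + b) := by
  obtain ⟨ha0, m, hm, ham⟩ := ha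
  obtain ⟨hb0, n, hn, hbn⟩ := hb
  rcases le_total m n with h | h
  · exact w.P_add_aux hR ha0 hm ham hn hbn h
  · rw [add_comm]
    exact w.P_add_aux hR hb0 hn hbn hm ham h

theorem P_sumSq (hR : Rl κ) {s : E} (hs : IsSumSq s) : s = 0 ∨ w.P s := by
  induction hs with
  | zero => exact Or.inl rfl
  | sq_add a hs ih =>
    by_cases ha : a = 0
    · rw [ha, mul_zero, zero_add]
      exact ih
    · right
      rcases ih with h | h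
      · rw [h, add_zero, ← sq]
        exact w.P_sq ha
      · rw [← sq]
        exact w.P_add hR (w.P_sq ha) h

theorem P_unit {e : E} (he : w.Int e) (h0 : w.r e ≠ 0) (h : IsSumSq (w.r e)) : w.P e := by
  have h1 := w.v_of_r_ne he h0
  refine ⟨h1.1, 0, by rw [h1.2]; ring, ?_⟩
  simpa using h

theorem P_even {s : E} (h : w.P s) : Even (w.v s) := by
  obtain ⟨-, m, hm, -⟩ := h
  exact ⟨m, by rw [hm]; ring⟩

/-- sums of squares of a vector -/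
theorem P_vec (hR : Rl κ) {n : ℕ} (V : Fin n → E) (h : ∃ k, V k ≠ 0) : w.P (∑ k, V k ^ 2) := by
  classical
  obtain ⟨k, hk⟩ := h
  rw [← Finset.add_sum_erase _ _ (Finset.mem_univ k)]
  rcases w.P_sumSq hR (IsSumSq.sum_sq (Finset.univ.erase k) V) with h | h
  · rw [h, add_zero]
    exact w.P_sq hk
  · exact w.P_add hR (w.P_sq hk) h

theorem P_pair (hR : Rl κ) {a b : E} (h : a ≠ 0 ∨ b ≠ 0) : w.P (a ^ 2 + b ^ 2) := by
  by_cases ha : a = 0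
  · rw [ha]
    have hb : b ≠ 0 := h.resolve_left (fun h => h ha)
    rw [zero_pow two_ne_zero, zero_add]
    exact w.P_sq hb
  · by_cases hb : b = 0
    · rw [hb, zero_pow two_ne_zero, add_zero]
      exact w.P_sq ha
    · exact w.P_add hR (w.P_sq ha) (w.P_sq hb)

/-- the even part -/
theorem even_part (c : L) (hA : Ani (ρ c)) {y₁ y₂ : E} (hy₁ : w.Int y₁)
    (hy₂ : w.Int y₂) (hy : w.r y₁ = - w.r y₂) (hy0 : w.r y₁ ≠ 0)
    (a₁ b₁ a₂ b₂ : E) (h : (a₁ ≠ 0 ∨ b₁ ≠ 0) ∨ (a₂ ≠ 0 ∨ b₂ ≠ 0)) :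
    y₁ * (a₁ ^ 2 + b₁ ^ 2) + ι c * y₂ * (a₂ ^ 2 + b₂ ^ 2) ≠ 0 ∧
      Even (w.v (y₁ * (a₁ ^ 2 + b₁ ^ 2) + ι c * y₂ * (a₂ ^ 2 + b₂ ^ 2))) := by
  set M := y₁ * (a₁ ^ 2 + b₁ ^ 2) + ι c * y₂ * (a₂ ^ 2 + b₂ ^ 2) with hM
  let f : Fin 4 → E := ![a₁, b₁, a₂, b₂]
  have hf : ∃ i, f i ≠ 0 := by
    rcases h with (h | h) | (h | h)
    · exact ⟨0, h⟩
    · exact ⟨1, h⟩
    · exact ⟨2, h⟩
    · exact ⟨3, h⟩
  obtain ⟨m, hm, i, hi0, hi⟩ := w.exists_min f hf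
  have e0 : w.Int (w.ϖ ^ (-m) * a₁) := w.int_scale (hm 0)
  have e1 : w.Int (w.ϖ ^ (-m) * b₁) := w.int_scale (hm 1)
  have e2 : w.Int (w.ϖ ^ (-m) * a₂) := w.int_scale (hm 2)
  have e3 : w.Int (w.ϖ ^ (-m) * b₂) := w.int_scale (hm 3)
  have hscale : w.ϖ ^ (-(2 * m)) * M = y₁ * ((w.ϖ ^ (-m) * a₁) ^ 2 + (w.ϖ ^ (-m) * b₁) ^ 2) +
      ι c * y₂ * ((w.ϖ ^ (-m) * a₂) ^ 2 + (w.ϖ ^ (-m) * b₂) ^ 2) := by
    have h1 : w.ϖ ^ (-(2 * m)) = (w.ϖ ^ (-m)) ^ 2 := by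
      rw [← zpow_natCast, ← zpow_mul]
      congr 1
      push_cast
      ring
    rw [hM, h1]
    ring
  have i1 := w.int_add (w.int_pow e0 2) (w.int_pow e1 2)
  have i2 := w.int_add (w.int_pow e2 2) (w.int_pow e3 2)
  have i3 := w.int_mul hy₁ i1
  have i4 := w.int_mul (w.int_mul (w.int_ι c) hy₂) i2
  have hr : w.r (w.ϖ ^ (-(2 * m)) * M) = w.r y₁ * ((w.r (w.ϖ ^ (-m) * a₁) ^ 2 +
      w.r (w.ϖ ^ (-m) * b₁) ^ 2) - ρ c * (w.r (w.ϖ ^ (-m) * a₂) ^ 2 +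
      w.r (w.ϖ ^ (-m) * b₂) ^ 2)) := by
    rw [hscale, w.r_add _ _ i3 i4, w.r_mul _ _ hy₁ i1, w.r_mul _ _ (w.int_mul (w.int_ι c) hy₂) i2,
      w.r_mul _ _ (w.int_ι c) hy₂, w.r_add _ _ (w.int_pow e0 2) (w.int_pow e1 2),
      w.r_add _ _ (w.int_pow e2 2) (w.int_pow e3 2), w.r_pow e0, w.r_pow e1, w.r_pow e2,
      w.r_pow e3, w.r_ι, hy]
    ring
  have hne : w.r (w.ϖ ^ (-(2 * m)) * M) ≠ 0 := by
    rw [hr]
    intro h0
    rcases mul_eq_zero.1 h0 with h0 | h0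
    · exact hy0 h0
    · obtain ⟨z1, z2, z3, z4⟩ := hA _ _ _ _ (sub_eq_zero.1 h0)
      have := w.r_scale_ne hi0 hi
      fin_cases i
      · exact this z1
      · exact this z2
      · exact this z3
      · exact this z4
  have hint : w.Int (w.ϖ ^ (-(2 * m)) * M) := by
    rw [hscale]
    exact w.int_add i3 i4
  have h3 := w.v_of_r_ne hint hne
  have h4 : M ≠ 0 := right_ne_zero_of_mul h3.1
  refine ⟨h4, m, ?_⟩
  have := h3.2
  rw [w.v_scale h4] at this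
  omega

/-- **The local lemma.** -/
theorem local_lemma (hR : Rl κ) (c : L) (hA : Ani (ρ c)) {y₁ y₂ e₃ e₄ t : E}
    (hy₁ : w.Int y₁) (hy₂ : w.Int y₂) (hy : w.r y₁ = - w.r y₂) (hy0 : w.r y₁ ≠ 0)
    (he₃ : w.P e₃) (he₄ : w.P e₄) (ht0 : t ≠ 0) (ht : Odd (w.v t))
    {a₁ b₁ a₂ b₂ a₃ b₃ a₄ b₄ : E} (h₁ : a₁ ≠ 0 ∨ b₁ ≠ 0) (h₂ : a₂ ≠ 0 ∨ b₂ ≠ 0)
    (h₃ : a₃ ≠ 0 ∨ b₃ ≠ 0) (h₄ : a₄ ≠ 0 ∨ b₄ ≠ 0) {n : ℕ} (V₁ V₂ V₃ V₄ : Fin n → E)
    (hV : (∃ k, V₁ k ≠ 0) ∨ (∃ k, V₂ k ≠ 0) ∨ (∃ k, V₃ k ≠ 0) ∨ (∃ k, V₄ k ≠ 0))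
    (heq : y₁ * (a₁ ^ 2 + b₁ ^ 2) * ∑ k, V₁ k ^ 2 + ι c * y₂ * (a₂ ^ 2 + b₂ ^ 2) * ∑ k, V₂ k ^ 2 +
      (t * e₃ * (a₃ ^ 2 + b₃ ^ 2) * ∑ k, V₃ k ^ 2 + t * e₄ * (a₄ ^ 2 + b₄ ^ 2) * ∑ k, V₄ k ^ 2) = 0)
    (p q : E) (hpq : p ≠ 0 ∨ q ≠ 0) (hrel : ∀ k, p * V₁ k + q * V₂ k = 0) : False := by
  have hvec : ∀ V : Fin n → E, (¬ ∃ k, V k ≠ 0) → V = 0 := by
    intro V h
    push Not at h
    exact funext h
  -- the vector `U`
  obtain ⟨U, hU1, hU2⟩ : ∃ U : Fin n → E, (∀ k, V₁ k = q * U k) ∧ (∀ k, V₂ k = -p * U k) := by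
    by_cases hp : p = 0
    · have hq : q ≠ 0 := hpq.resolve_left (fun h => h hp)
      refine ⟨fun k => V₁ k / q, fun k => by field_simp, fun k => ?_⟩
      have := hrel k
      rw [hp, zero_mul, zero_add] at this
      rw [hp, neg_zero, zero_mul]
      exact (mul_eq_zero.1 this).resolve_left hq
    · refine ⟨fun k => -V₂ k / p, fun k => ?_, fun k => by field_simp⟩
      have := hrel k
      field_simp
      linear_combination this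
  set M := y₁ * ((q * a₁) ^ 2 + (q * b₁) ^ 2) + ι c * y₂ * ((p * a₂) ^ 2 + (p * b₂) ^ 2) with hM
  obtain ⟨hM0, hMe⟩ := w.even_part c hA hy₁ hy₂ hy hy0 (q * a₁) (q * b₁) (p * a₂) (p * b₂) (by
    rcases hpq with h | h
    · right
      rcases h₂ with h' | h'
      · left; exact mul_ne_zero h h'
      · right; exact mul_ne_zero h h'
    · left
      rcases h₁ with h' | h'
      · left; exact mul_ne_zero h h'
      · right; exact mul_ne_zero h h')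
  have hev : y₁ * (a₁ ^ 2 + b₁ ^ 2) * ∑ k, V₁ k ^ 2 + ι c * y₂ * (a₂ ^ 2 + b₂ ^ 2) * ∑ k, V₂ k ^ 2 =
      M * ∑ k, U k ^ 2 := by
    have h1 : ∑ k, V₁ k ^ 2 = q ^ 2 * ∑ k, U k ^ 2 := by
      rw [Finset.mul_sum]
      exact Finset.sum_congr rfl fun k _ => by rw [hU1 k]; ring
    have h2 : ∑ k, V₂ k ^ 2 = p ^ 2 * ∑ k, U k ^ 2 := by
      rw [Finset.mul_sum]
      exact Finset.sum_congr rfl fun k _ => by rw [hU2 k]; ring
    rw [h1, h2, hM]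
    ring
  rw [hev] at heq
  set O := e₃ * (a₃ ^ 2 + b₃ ^ 2) * ∑ k, V₃ k ^ 2 + e₄ * (a₄ ^ 2 + b₄ ^ 2) * ∑ k, V₄ k ^ 2 with hO
  have heq' : M * ∑ k, U k ^ 2 + t * O = 0 := by
    rw [hO]
    linear_combination heq
  have hP3 := w.P_mul he₃ (w.P_pair hR h₃)
  have hP4 := w.P_mul he₄ (w.P_pair hR h₄)
  have hOP : (V₃ = 0 ∧ V₄ = 0) ∨ w.P O := by
    by_cases h3 : ∃ k, V₃ k ≠ 0
    · right
      by_cases h4 : ∃ k, V₄ k ≠ 0
      · exact w.P_add hR (w.P_mul hP3 (w.P_vec hR _ h3)) (w.P_mul hP4 (w.P_vec hR _ h4))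
      · rw [hO, hvec _ h4]
        simp only [Pi.zero_apply, zero_pow two_ne_zero, Finset.sum_const_zero, mul_zero, add_zero]
        exact w.P_mul hP3 (w.P_vec hR _ h3)
    · by_cases h4 : ∃ k, V₄ k ≠ 0
      · right
        rw [hO, hvec _ h3]
        simp only [Pi.zero_apply, zero_pow two_ne_zero, Finset.sum_const_zero, mul_zero, zero_add]
        exact w.P_mul hP4 (w.P_vec hR _ h4)
      · exact Or.inl ⟨hvec _ h3, hvec _ h4⟩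
  by_cases hU : ∃ k, U k ≠ 0
  · have hPU := w.P_vec hR U hU
    have hEv0 : M * ∑ k, U k ^ 2 ≠ 0 := mul_ne_zero hM0 hPU.1
    rcases hOP with ⟨h3, h4⟩ | hOP
    · apply hEv0
      have : O = 0 := by rw [hO, h3, h4]; simp
      rw [this, mul_zero, add_zero] at heq'
      exact heq'
    · have h5 : M * ∑ k, U k ^ 2 = -(t * O) := by linear_combination heq'
      have h6 := congrArg w.v h5
      rw [w.v_neg, w.v_mul _ _ hM0 hPU.1, w.v_mul _ _ ht0 hOP.1] at h6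
      have h7 := hMe.add (w.P_even hPU)
      rw [h6] at h7
      have h8 := ht.add_even (w.P_even hOP)
      exact (Int.not_even_iff_odd.2 h8) h7
  · have hU' := hvec _ hU
    have h1 : V₁ = 0 := funext fun k => by rw [hU1 k, hU']; simp
    have h2 : V₂ = 0 := funext fun k => by rw [hU2 k, hU']; simp
    rw [hU'] at heq'
    simp only [Pi.zero_apply, zero_pow two_ne_zero, Finset.sum_const_zero, mul_zero, zero_add] at heq'
    rcases hOP with ⟨h3, h4⟩ | hOP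
    · rw [h1, h2, h3, h4] at hV
      simp at hV
    · rcases mul_eq_zero.1 heq' with h | h
      · exact ht0 h
      · exact hOP.1 h

end Plc

end Pool.Agent.L0.W4
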