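import Mathlib

/-!
# Discrete places, trivial on a base field
-/

set_option autoImplicit false

namespace Pool.Agent.L0.W4

/-- A discrete place of the field `E` with values in the field `κ`, trivial on `L`: `v` is the
valuation (on nonzero elements), `r` the residue map (on elements of value `≥ 0`). -/
structure Plc {L E κ : Type*} [Field L] [Field E] [Field κ] (ι : L →+* E) (ρ : L →+* κ) where
  v : E → ℤ
  r : E → κ
  ϖ : E
  v_mul : ∀ a b, a ≠ 0 → b ≠ 0 → v (a * b) = v a + v b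
  v_add : ∀ a b, a ≠ 0 → b ≠ 0 → a + b ≠ 0 → min (v a) (v b) ≤ v (a + b)
  ϖ_ne : ϖ ≠ 0
  v_ϖ : v ϖ = 1
  r_eq_zero : ∀ a, a ≠ 0 → 0 ≤ v a → (r a = 0 ↔ 0 < v a)
  r_zero : r 0 = 0
  r_add : ∀ a b, (a = 0 ∨ 0 ≤ v a) → (b = 0 ∨ 0 ≤ v b) → r (a + b) = r a + r b
  r_mul : ∀ a b, (a = 0 ∨ 0 ≤ v a) → (b = 0 ∨ 0 ≤ v b) → r (a * b) = r a * r b
  v_ι : ∀ c, c ≠ 0 → v (ι c) = 0
  r_ι : ∀ c, r (ι c) = ρ c

namespace Plc

variable {L E κ : Type*} [Field L] [Field E] [Field κ] {ι : L →+* E} {ρ : L →+* κ}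
  (w : Plc ι ρ)

/-- Integral elements. -/
def Int (a : E) : Prop := a = 0 ∨ 0 ≤ w.v a

theorem v_one : w.v 1 = 0 := by
  have := w.v_mul 1 1 one_ne_zero one_ne_zero
  simp at this
  exact this

theorem v_neg_one : w.v (-1) = 0 := by
  have h := w.v_mul (-1) (-1) (by simp) (by simp)
  have h1 := w.v_one
  simp at h
  omega

theorem v_neg (a : E) : w.v (-a) = w.v a := by
  by_cases h : a = 0
  · simp [h]
  · have := w.v_mul (-1) a (by simp) h
    rw [w.v_neg_one] at this
    simpa using this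

theorem v_inv (a : E) (h : a ≠ 0) : w.v a⁻¹ = - w.v a := by
  have := w.v_mul a a⁻¹ h (inv_ne_zero h)
  rw [mul_inv_cancel₀ h, w.v_one] at this
  omega

theorem v_div (a b : E) (ha : a ≠ 0) (hb : b ≠ 0) : w.v (a / b) = w.v a - w.v b := by
  rw [div_eq_mul_inv, w.v_mul _ _ ha (inv_ne_zero hb), w.v_inv _ hb]
  ring

theorem v_pow (a : E) (h : a ≠ 0) (n : ℕ) : w.v (a ^ n) = n * w.v a := by
  induction n with
  | zero => simp [w.v_one]
  | succ n ih =>
    rw [pow_succ, w.v_mul _ _ (pow_ne_zero _ h) h, ih]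
    push_cast
    ring

theorem v_zpow (a : E) (h : a ≠ 0) (n : ℤ) : w.v (a ^ n) = n * w.v a := by
  rcases n with n | n
  · simpa using w.v_pow a h n
  · rw [zpow_negSucc, w.v_inv _ (pow_ne_zero _ h), w.v_pow _ h]
    push_cast
    rw [Int.negSucc_eq]
    push_cast
    ring

theorem v_ϖ_zpow (n : ℤ) : w.v (w.ϖ ^ n) = n := by
  rw [w.v_zpow _ w.ϖ_ne, w.v_ϖ, mul_one]

theorem ϖ_zpow_ne (n : ℤ) : w.ϖ ^ n ≠ 0 := zpow_ne_zero _ w.ϖ_ne

theorem int_zero : w.Int 0 := Or.inl rfl

theorem int_one : w.Int 1 := Or.inr w.v_one.ge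

theorem int_ι (c : L) : w.Int (ι c) := by
  by_cases h : c = 0
  · left; simp [h]
  · right; rw [w.v_ι c h]

theorem int_mul {a b : E} (ha : w.Int a) (hb : w.Int b) : w.Int (a * b) := by
  rcases ha with rfl | ha
  · left; simp
  rcases hb with rfl | hb
  · left; simp
  by_cases h0 : a = 0
  · left; simp [h0]
  by_cases h1 : b = 0
  · left; simp [h1]
  right
  rw [w.v_mul _ _ h0 h1]
  omega

theorem int_add {a b : E} (ha : w.Int a) (hb : w.Int b) : w.Int (a + b) := by
  by_cases h0 : a = 0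
  · rw [h0, zero_add]; exact hb
  by_cases h1 : b = 0
  · rw [h1, add_zero]; exact ha
  by_cases h2 : a + b = 0
  · exact Or.inl h2
  have ha := ha.resolve_left h0
  have hb := hb.resolve_left h1
  right
  have := w.v_add a b h0 h1 h2
  exact (le_min ha hb).trans this

theorem int_neg {a : E} (ha : w.Int a) : w.Int (-a) := by
  rcases ha with rfl | ha
  · left; simp
  · right; rw [w.v_neg]; exact ha

theorem int_pow {a : E} (ha : w.Int a) (n : ℕ) : w.Int (a ^ n) := by
  induction n with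
  | zero => simpa using w.int_one
  | succ n ih => rw [pow_succ]; exact w.int_mul ih ha

theorem int_sum {α : Type*} (s : Finset α) (f : α → E) (h : ∀ i ∈ s, w.Int (f i)) :
    w.Int (∑ i ∈ s, f i) := by
  classical
  induction s using Finset.induction_on with
  | empty => simpa using w.int_zero
  | insert a s has ih =>
    rw [Finset.sum_insert has]
    exact w.int_add (h a (Finset.mem_insert_self _ _))
      (ih fun i hi => h i (Finset.mem_insert_of_mem hi))

theorem r_sum {α : Type*} (s : Finset α) (f : α → E) (h : ∀ i ∈ s, w.Int (f i)) :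
    w.r (∑ i ∈ s, f i) = ∑ i ∈ s, w.r (f i) := by
  classical
  induction s using Finset.induction_on with
  | empty => simpa using w.r_zero
  | insert a s has ih =>
    rw [Finset.sum_insert has, Finset.sum_insert has,
      w.r_add _ _ (h a (Finset.mem_insert_self _ _))
      (w.int_sum _ _ fun i hi => h i (Finset.mem_insert_of_mem hi)),
      ih fun i hi => h i (Finset.mem_insert_of_mem hi)]

theorem r_one : w.r 1 = 1 := by
  have := w.r_ι 1
  simpa using this

theorem r_pow {a : E} (ha : w.Int a) (n : ℕ) : w.r (a ^ n) = w.r a ^ n := by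
  induction n with
  | zero => simpa using w.r_one
  | succ n ih => rw [pow_succ, pow_succ, w.r_mul _ _ (w.int_pow ha n) ha, ih]

theorem r_neg {a : E} (ha : w.Int a) : w.r (-a) = - w.r a := by
  have h := w.r_add a (-a) ha (w.int_neg ha)
  rw [add_neg_cancel, w.r_zero] at h
  exact (neg_eq_of_add_eq_zero_right h.symm).symm

theorem r_of_pos {a : E} (ha : a = 0 ∨ 0 < w.v a) : w.r a = 0 := by
  by_cases h : a = 0
  · rw [h]; exact w.r_zero
  · have ha := ha.resolve_left h
    exact (w.r_eq_zero a h ha.le).2 ha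

theorem r_ne_zero {a : E} (h : a ≠ 0) (ha : w.v a = 0) : w.r a ≠ 0 := by
  intro h0
  have := (w.r_eq_zero a h ha.ge).1 h0
  omega

theorem v_of_r_ne {a : E} (ha : w.Int a) (h : w.r a ≠ 0) : a ≠ 0 ∧ w.v a = 0 := by
  have h0 : a ≠ 0 := by
    rintro rfl
    exact h w.r_zero
  have h1 := ha.resolve_left h0
  refine ⟨h0, ?_⟩
  by_contra h2
  exact h ((w.r_eq_zero a h0 h1).2 (by omega))

/-- Normalising a finite nonzero family. -/
theorem exists_min {α : Type*} [Finite α] (f : α → E) (hf : ∃ i, f i ≠ 0) :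
    ∃ m : ℤ, (∀ i, f i = 0 ∨ m ≤ w.v (f i)) ∧ ∃ i, f i ≠ 0 ∧ w.v (f i) = m := by
  classical
  have := Fintype.ofFinite α
  let s : Finset α := Finset.univ.filter fun i => f i ≠ 0
  have hs : s.Nonempty := by
    obtain ⟨i, hi⟩ := hf
    exact ⟨i, by simpa [s] using hi⟩
  obtain ⟨i, hi, hmin⟩ := Finset.exists_min_image s (fun i => w.v (f i)) hs
  refine ⟨w.v (f i), fun j => ?_, i, by simpa [s] using hi, rfl⟩
  by_cases hj : f j = 0
  · exact Or.inl hj
  · exact Or.inr (hmin j (by simpa [s] using hj))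

theorem v_scale {a : E} (h : a ≠ 0) (m : ℤ) : w.v (w.ϖ ^ m * a) = m + w.v a := by
  rw [w.v_mul _ _ (w.ϖ_zpow_ne m) h, w.v_ϖ_zpow]

theorem int_scale {a : E} {m : ℤ} (h : a = 0 ∨ m ≤ w.v a) : w.Int (w.ϖ ^ (-m) * a) := by
  by_cases h0 : a = 0
  · left; simp [h0]
  · right
    rw [w.v_scale h0]
    have := h.resolve_left h0
    omega

theorem r_scale_ne {a : E} {m : ℤ} (h0 : a ≠ 0) (h : w.v a = m) : w.r (w.ϖ ^ (-m) * a) ≠ 0 := by
  apply w.r_ne_zero (mul_ne_zero (w.ϖ_zpow_ne _) h0)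
  rw [w.v_scale h0]
  omega

theorem r_scale_eq_zero_iff {a : E} {m : ℤ} (h : a = 0 ∨ m ≤ w.v a) :
    w.r (w.ϖ ^ (-m) * a) = 0 ↔ a = 0 ∨ m < w.v a := by
  by_cases h0 : a = 0
  · simp [h0, w.r_zero]
  · have h := h.resolve_left h0
    rw [w.r_eq_zero _ (mul_ne_zero (w.ϖ_zpow_ne _) h0) (by rw [w.v_scale h0]; omega), w.v_scale h0]
    constructor
    · intro h; right; omega
    · rintro (h | h)
      · exact absurd h h0
      · omega

end Plc

end Pool.Agent.L0.W4
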