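import Pool.Agent.L0.W4.Exist5

/-!
# Real fields and anisotropic forms in odd extensions of rational function fields
-/

set_option autoImplicit false

open Polynomial

universe u

namespace Pool.Agent.L0.W4

/-- Formally real. -/
def Rl (F : Type*) [Field F] : Prop := ∀ a b : F, IsSumSq a → IsSumSq b → a + b = 0 → a = 0

/-- The form `⟨1,1,-c,-c⟩` is anisotropic. -/
def Ani {F : Type*} [Field F] (c : F) : Prop :=
  ∀ a b e f : F, a ^ 2 + b ^ 2 = c * (e ^ 2 + f ^ 2) → a = 0 ∧ b = 0 ∧ e = 0 ∧ f = 0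

theorem isSumSq_exists {F : Type*} [Field F] {s : F} (h : IsSumSq s) :
    ∃ (m : ℕ) (v : Fin m → F), s = ∑ i, v i ^ 2 := by
  induction h with
  | zero => exact ⟨0, 0, by simp⟩
  | sq_add a hs ih =>
    obtain ⟨m, v, rfl⟩ := ih
    exact ⟨m + 1, Fin.cons a v, by simp [Fin.sum_univ_succ, sq]⟩

theorem Rl.sumsq_eq_zero {F : Type*} [Field F] (h : Rl F) {α : Type*} (s : Finset α) (v : α → F)
    (hv : ∑ i ∈ s, v i ^ 2 = 0) : ∀ i ∈ s, v i = 0 := by
  classical
  intro i hi
  rw [← Finset.add_sum_erase s _ hi] at hv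
  have := h (v i ^ 2) _ (by rw [sq]; exact IsSumSq.mul_self _) (IsSumSq.sum_sq _ _) hv
  exact pow_eq_zero_iff (two_ne_zero) |>.1 this

theorem Rl.anis {F : Type*} [Field F] (h : Rl F) (m : ℕ) (v : Fin m → F)
    (hv : ∑ i, (1 : F) * v i ^ 2 = 0) : v = 0 := by
  funext i
  simp only [one_mul] at hv
  exact h.sumsq_eq_zero _ _ hv i (Finset.mem_univ _)

theorem rl_of_anis {F : Type*} [Field F]
    (h : ∀ (m : ℕ) (v : Fin m → F), ∑ i, (1 : F) * v i ^ 2 = 0 → v = 0) : Rl F := by
  intro a b ha hb hab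
  obtain ⟨m, v, rfl⟩ := isSumSq_exists ha
  obtain ⟨n, u, rfl⟩ := isSumSq_exists hb
  have := h (m + n) (Fin.append v u) (by
    rw [Fin.sum_univ_add]
    simpa using hab)
  have h1 : ∀ i, v i = 0 := fun i => by
    have := congrFun this (Fin.castAdd n i)
    simpa using this
  simp [h1]

theorem Ani.anis {F : Type*} [Field F] {c : F} (h : Ani c) (v : Fin 4 → F)
    (hv : ∑ i, (![1, 1, -c, -c] : Fin 4 → F) i * v i ^ 2 = 0) : v = 0 := by
  rw [Fin.sum_univ_four] at hv
  simp at hv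
  have := h (v 0) (v 1) (v 2) (v 3) (by linear_combination hv)
  funext i
  fin_cases i
  · exact this.1
  · exact this.2.1
  · exact this.2.2.1
  · exact this.2.2.2

theorem ani_of_anis {F : Type*} [Field F] {c : F}
    (h : ∀ v : Fin 4 → F, ∑ i, (![1, 1, -c, -c] : Fin 4 → F) i * v i ^ 2 = 0 → v = 0) : Ani c := by
  intro a b e f habe
  have := h ![a, b, e, f] (by
    rw [Fin.sum_univ_four]
    simp
    linear_combination habe)
  exact ⟨congrFun this 0, congrFun this 1, congrFun this 2, congrFun this 3⟩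

/-- the case of a number which is not a sum of two squares -/
theorem ani_of_not_two {F : Type*} [Field F] (hR : Rl F) {c : F}
    (hc : ∀ a b : F, c ≠ a ^ 2 + b ^ 2) : Ani c := by
  intro a b e f h
  have h2 : ∀ x y : F, x ^ 2 + y ^ 2 = 0 → x = 0 ∧ y = 0 := by
    intro x y hxy
    have h3 := hR (x ^ 2) (y ^ 2) (by rw [sq]; exact IsSumSq.mul_self _)
      (by rw [sq]; exact IsSumSq.mul_self _) hxy
    have h4 : y ^ 2 = 0 := by rw [h3, zero_add] at hxy; exact hxy
    exact ⟨pow_eq_zero_iff two_ne_zero |>.1 h3, pow_eq_zero_iff two_ne_zero |>.1 h4⟩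
  by_cases hef : e ^ 2 + f ^ 2 = 0
  · rw [hef, mul_zero] at h
    obtain ⟨h3, h4⟩ := h2 _ _ h
    obtain ⟨h5, h6⟩ := h2 _ _ hef
    exact ⟨h3, h4, h5, h6⟩
  · exfalso
    apply hc ((a * e + b * f) / (e ^ 2 + f ^ 2)) ((a * f - b * e) / (e ^ 2 + f ^ 2))
    field_simp
    linear_combination (-(e ^ 2 + f ^ 2)) * h

/-- a form anisotropic over the residue field is anisotropic -/
theorem Plc.anis {L E κ : Type*} [Field L] [Field E] [Field κ] {ι : L →+* E} {ρ : L →+* κ}
    (w : Plc ι ρ) {m : ℕ} (a : Fin m → L)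
    (h : ∀ v : Fin m → κ, ∑ i, ρ (a i) * v i ^ 2 = 0 → v = 0) (v : Fin m → E)
    (hv : ∑ i, ι (a i) * v i ^ 2 = 0) : v = 0 := by
  by_contra hne
  have hex : ∃ i, v i ≠ 0 := by
    by_contra hcon
    push Not at hcon
    exact hne (funext hcon)
  obtain ⟨s, hs, i, hi0, hi⟩ := w.exists_min v hex
  have h1 : ∑ i, ρ (a i) * (w.r (w.ϖ ^ (-s) * v i)) ^ 2 = 0 := by
    have h2 : ∑ i, ι (a i) * (w.ϖ ^ (-s) * v i) ^ 2 = 0 := by
      have : ∑ i, ι (a i) * (w.ϖ ^ (-s) * v i) ^ 2 = (w.ϖ ^ (-s)) ^ 2 * ∑ i, ι (a i) * v i ^ 2 := by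
        rw [Finset.mul_sum]
        exact Finset.sum_congr rfl fun i _ => by ring
      rw [this, hv, mul_zero]
    have h3 := congrArg w.r h2
    rw [w.r_zero, w.r_sum _ _ fun i _ => w.int_mul (w.int_ι _) (w.int_pow (w.int_scale (hs i)) _)] at h3
    rw [← h3]
    refine Finset.sum_congr rfl fun i _ => ?_
    rw [w.r_mul _ _ (w.int_ι _) (w.int_pow (w.int_scale (hs i)) _), w.r_ι,
      w.r_pow (w.int_scale (hs i))]
  exact w.r_scale_ne hi0 hi (congrFun (h _ h1) i)

theorem anis_ratFunc {k E : Type u} [Field k] [CharZero k] [Field E] [Algebra (RatFunc k) E]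
    [FiniteDimensional (RatFunc k) E] (hodd : Odd (Module.finrank (RatFunc k) E))
    {m : ℕ} (a : Fin m → k) (h : ∀ v : Fin m → k, ∑ i, a i * v i ^ 2 = 0 → v = 0) (v : Fin m → E)
    (hv : ∑ i, bse k E (a i) * v i ^ 2 = 0) : v = 0 := by
  obtain ⟨κ, _, _, h1, h2, w, -, -⟩ := exists_place_at hodd (0 : k)
  exact w.anis a (fun v hv => springer h2 a h v hv) v hv

theorem Rl.odd {F E : Type*} [Field F] [CharZero F] [Field E] [Algebra F E]
    [FiniteDimensional F E] (hodd : Odd (Module.finrank F E)) (h : Rl F) : Rl E := by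
  refine rl_of_anis fun m v hv => ?_
  refine springer hodd (fun _ => 1) (h.anis m) v ?_
  simpa using hv

theorem Ani.odd {F E : Type*} [Field F] [CharZero F] [Field E] [Algebra F E]
    [FiniteDimensional F E] (hodd : Odd (Module.finrank F E)) {c : F} (h : Ani c) :
    Ani (algebraMap F E c) := by
  refine ani_of_anis fun v hv => ?_
  refine springer hodd ![1, 1, -c, -c] h.anis v ?_
  rw [Fin.sum_univ_four] at hv ⊢
  simpa using hv

theorem Rl.ratFunc {k : Type u} [Field k] [CharZero k] (h : Rl k) : Rl (RatFunc k) := by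
  refine rl_of_anis fun m v hv => ?_
  refine anis_ratFunc (E := RatFunc k) (by rw [Module.finrank_self]; exact odd_one)
    (fun _ => 1) (h.anis m) v ?_
  simpa using hv

theorem Ani.ratFunc {k : Type u} [Field k] [CharZero k] {c : k} (h : Ani c) :
    Ani (RatFunc.C c) := by
  refine ani_of_anis fun v hv => ?_
  refine anis_ratFunc (E := RatFunc k) (by rw [Module.finrank_self]; exact odd_one)
    ![1, 1, -c, -c] h.anis v ?_
  rw [Fin.sum_univ_four] at hv ⊢
  simpa [bse] using hv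

theorem charZero_ratFunc (k : Type u) [Field k] [CharZero k] : CharZero (RatFunc k) :=
  charZero_of_injective_ringHom (RatFunc.C : k →+* RatFunc k).injective

end Pool.Agent.L0.W4
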